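import Pool.Agent.Helper66K9.VRC.Basic

/-!
# Virtual retracts from actions which commute with a free action of the integers
-/

set_option autoImplicit false

namespace Pool.Agent.Helper66K9.VRC

universe u v w

open Equiv

/-- Data of an action on `E` commuting with a free `ℤ`-action generated by `t` whose orbits are the
fibres of `π`. -/
structure ShiftSpace {G : Type u} {E : Type v} {Ω : Type w} [Group G] (φ : G →* Perm E)
    (t : Perm E) (π : E → Ω) : Prop where
  comm : ∀ g z, φ g (t z) = t (φ g z)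
  free : ∀ (z : E) (n : ℤ), (t ^ n) z = z → n = 0
  surj : Function.Surjective π
  fib : ∀ z z', π z = π z' ↔ ∃ n : ℤ, z' = (t ^ n) z

namespace ShiftSpace

variable {G : Type u} {E : Type v} {Ω : Type w} [Group G] {φ : G →* Perm E}
    {t : Perm E} {π : E → Ω}

theorem comm_zpow (h : ShiftSpace φ t π) (g : G) (n : ℤ) (z : E) :
    φ g ((t ^ n) z) = (t ^ n) (φ g z) := by
  have h1 : Commute (φ g) t := by
    ext z
    exact h.comm g z
  have h2 : Commute (φ g) (t ^ n) := h1.zpow_right n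
  exact congrArg (fun f : Perm E => f z) h2

theorem inj (h : ShiftSpace φ t π) (z : E) (m n : ℤ) (hmn : (t ^ m) z = (t ^ n) z) : m = n := by
  have h1 : (t ^ (m - n)) z = z := by
    apply (t ^ n).injective
    rw [← Perm.mul_apply, ← zpow_add, ← hmn]
    congr 2
    omega
  have := h.free _ _ h1
  omega

theorem π_zpow (h : ShiftSpace φ t π) (z : E) (n : ℤ) : π ((t ^ n) z) = π z :=
  ((h.fib _ _).mpr ⟨n, rfl⟩).symm

/-- the section -/
noncomputable def sec (h : ShiftSpace φ t π) (o : Ω) : E := (h.surj o).choose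

theorem π_sec (h : ShiftSpace φ t π) (o : Ω) : π (h.sec o) = o := (h.surj o).choose_spec

/-- the induced action on the orbits -/
noncomputable def act (h : ShiftSpace φ t π) (g : G) (o : Ω) : Ω := π (φ g (h.sec o))

theorem π_φ (h : ShiftSpace φ t π) (g : G) (z : E) : π (φ g z) = h.act g (π z) := by
  obtain ⟨n, hn⟩ := (h.fib (h.sec (π z)) z).mp (h.π_sec _)
  conv_lhs => rw [hn]
  rw [h.comm_zpow, h.π_zpow]
  rfl

theorem act_one (h : ShiftSpace φ t π) (o : Ω) : h.act 1 o = o := by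
  unfold act
  rw [map_one]
  exact h.π_sec o

theorem act_mul (h : ShiftSpace φ t π) (g k : G) (o : Ω) :
    h.act (g * k) o = h.act g (h.act k o) := by
  conv_lhs => rw [act, map_mul, Perm.mul_apply, h.π_φ, h.π_φ, h.π_sec]

/-- the induced homomorphism to the permutations of the orbits -/
noncomputable def ψ (h : ShiftSpace φ t π) : G →* Perm Ω where
  toFun g := ⟨h.act g, h.act g⁻¹, fun o => by rw [← h.act_mul, inv_mul_cancel, h.act_one],
    fun o => by rw [← h.act_mul, mul_inv_cancel, h.act_one]⟩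
  map_one' := by ext o; exact h.act_one o
  map_mul' g k := by ext o; exact h.act_mul g k o

theorem ψ_apply (h : ShiftSpace φ t π) (g : G) (o : Ω) : h.ψ g o = h.act g o := rfl

theorem π_φ' (h : ShiftSpace φ t π) (g : G) (z : E) : π (φ g z) = h.ψ g (π z) := h.π_φ g z

theorem exists_c (h : ShiftSpace φ t π) (g : G) (o : Ω) :
    ∃ n : ℤ, φ g (h.sec o) = (t ^ n) (h.sec (h.ψ g o)) := by
  apply (h.fib _ _).mp
  rw [h.π_sec, h.π_φ', h.π_sec]

/-- the cocycle -/
noncomputable def c (h : ShiftSpace φ t π) (g : G) (o : Ω) : ℤ := (h.exists_c g o).choose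

theorem c_spec (h : ShiftSpace φ t π) (g : G) (o : Ω) :
    φ g (h.sec o) = (t ^ (h.c g o)) (h.sec (h.ψ g o)) := (h.exists_c g o).choose_spec

theorem c_mul (h : ShiftSpace φ t π) (g k : G) (o : Ω) :
    h.c (g * k) o = h.c g (h.ψ k o) + h.c k o := by
  apply h.inj (h.sec (h.ψ (g * k) o))
  rw [← h.c_spec, map_mul, Perm.mul_apply, h.c_spec k o, h.comm_zpow, h.c_spec g, add_comm, zpow_add,
    Perm.mul_apply, map_mul, Perm.mul_apply]

theorem c_one (h : ShiftSpace φ t π) (o : Ω) : h.c 1 o = 0 := by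
  have := h.c_mul 1 1 o
  rw [map_one, mul_one, Perm.one_apply] at this
  omega

theorem c_eq (h : ShiftSpace φ t π) (g : G) (z : E) (m : ℤ) (hm : φ g z = (t ^ m) z) :
    h.ψ g (π z) = π z ∧ h.c g (π z) = m := by
  have h1 : h.ψ g (π z) = π z := by rw [← h.π_φ', hm, h.π_zpow]
  refine ⟨h1, ?_⟩
  obtain ⟨n, hn⟩ := (h.fib (h.sec (π z)) z).mp (h.π_sec _)
  apply h.inj ((t ^ n) (h.sec (π z)))
  have h2 : (t ^ (h.c g (π z))) ((t ^ n) (h.sec (π z))) = φ g z := by
    conv_rhs => rw [hn]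
    rw [h.comm_zpow, h.c_spec, h1, ← Perm.mul_apply, ← Perm.mul_apply, ← zpow_add, ← zpow_add,
      add_comm]
  rw [h2, hm, ← hn]

/-- Main lemma: if a power of `g` acts on some `ℤ`-orbit as a nontrivial translation, then the
subgroup generated by `g` is a virtual retract. -/
theorem retract [Finite Ω] (h : ShiftSpace φ t π) (g : G) (z : E) (n : ℕ) (m : ℤ)
    (hm : m ≠ 0) (hz : φ (g ^ n) z = (t ^ m) z) : VirtualRetract (Subgroup.zpowers g) := by
  classical
  obtain ⟨h1, h2⟩ := h.c_eq _ _ _ hz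
  obtain ⟨o₀, ho₀⟩ : ∃ o, o = π z := ⟨_, rfl⟩
  rw [← ho₀] at h1 h2
  -- the orbit of `o₀`
  have hfin : {o : Ω | ∃ i : ℤ, o = h.ψ (g ^ i) o₀}.Finite := Set.toFinite _
  let F : Finset Ω := hfin.toFinset
  have hF : ∀ o, o ∈ F ↔ ∃ i : ℤ, o = h.ψ (g ^ i) o₀ := fun o => hfin.mem_toFinset
  have ho₀F : o₀ ∈ F := (hF _).mpr ⟨0, by simp⟩
  -- the stabilizer
  let K : Subgroup G :=
    { carrier := {k | ∀ o, o ∈ F ↔ h.ψ k o ∈ F}
      one_mem' := by intro o; simp
      mul_mem' := by
        intro a b ha hb o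
        rw [map_mul, Perm.mul_apply]
        exact (hb o).trans (ha _)
      inv_mem' := by
        intro a ha o
        have := ha (h.ψ a⁻¹ o)
        rw [← Perm.mul_apply, ← map_mul, mul_inv_cancel, map_one, Perm.one_apply] at this
        exact this.symm }
  have hKf : K.FiniteIndex := by
    have h3 : h.ψ.ker ≤ K := by
      intro k hk o
      rw [MonoidHom.mem_ker] at hk
      rw [hk]
      rfl
    exact Subgroup.finiteIndex_of_le h3
  have hgK : g ∈ K := by
    intro o
    rw [hF, hF]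
    constructor
    · rintro ⟨i, rfl⟩
      exact ⟨1 + i, by rw [zpow_add, zpow_one, map_mul, Perm.mul_apply]⟩
    · rintro ⟨i, hi⟩
      refine ⟨-1 + i, ?_⟩
      rw [zpow_add, zpow_neg_one, map_mul, Perm.mul_apply, ← hi, ← Perm.mul_apply, ← map_mul,
        inv_mul_cancel, map_one, Perm.one_apply]
  let χ : K →* Multiplicative ℤ := MonoidHom.mk'
    (fun k => Multiplicative.ofAdd (∑ o ∈ F, h.c k o)) (by
      intro k l
      rw [← ofAdd_add]
      congr 1
      have h4 : ∑ o ∈ F, h.c (k : G) o = ∑ o ∈ F, h.c (k : G) (h.ψ l o) :=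
        (Finset.sum_equiv (h.ψ (l : G)) (fun o => l.2 o) (fun o _ => rfl)).symm
      rw [h4, ← Finset.sum_add_distrib]
      refine Finset.sum_congr rfl fun o _ => ?_
      exact h.c_mul _ _ _)
  refine VirtualRetract.of_hom g K hgK χ ?_
  intro h5
  have h6 : χ (⟨g, hgK⟩ ^ n) = 1 := by rw [map_pow, h5, one_pow]
  have h7 : ∑ o ∈ F, h.c (g ^ n) o = 0 := by
    have h8 : χ (⟨g, hgK⟩ ^ n) = Multiplicative.ofAdd (∑ o ∈ F, h.c (g ^ n) o) := rfl
    rw [h8] at h6
    exact h6
  have h9 : ∑ o ∈ F, h.c (g ^ n) o = ∑ o ∈ F, m := by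
    refine Finset.sum_congr rfl fun o ho => ?_
    obtain ⟨i, rfl⟩ := (hF o).mp ho
    have e1 := h.c_mul (g ^ n) (g ^ i) o₀
    have e2 := h.c_mul (g ^ i) (g ^ n) o₀
    have e3 : g ^ n * g ^ i = g ^ i * g ^ n := by
      rw [← zpow_natCast, ← zpow_add, ← zpow_add, add_comm]
    rw [e3] at e1
    rw [h1] at e2
    omega
  rw [h9, Finset.sum_const, nsmul_eq_mul] at h7
  have h10 : (F.card : ℤ) ≠ 0 := by
    have := Finset.card_ne_zero_of_mem ho₀F
    exact_mod_cast this
  exact (mul_ne_zero h10 hm) h7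

end ShiftSpace

end Pool.Agent.Helper66K9.VRC
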