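import Mathlib

/-!
# Virtual retracts: basic facts
-/

set_option autoImplicit false

namespace Pool.Agent.Helper66K9.VRC

universe u v

/-- `H` is a virtual retract of `G`: there are a subgroup `K` of finite index in `G` which
contains `H` and a homomorphism `K → H` whose restriction to `H` is the identity. -/
def VirtualRetract {G : Type u} [Group G] (H : Subgroup G) : Prop :=
  ∃ K : Subgroup G, K.FiniteIndex ∧ H ≤ K ∧
    ∃ ρ : K →* H, ∀ k : K, ∀ hk : (k : G) ∈ H, ρ k = ⟨(k : G), hk⟩

/-- Property (VRC): every cyclic subgroup is a virtual retract. -/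
def PropVRC (G : Type u) [Group G] : Prop :=
  ∀ g : G, VirtualRetract (Subgroup.zpowers g)

theorem comap_fi {G : Type u} {W : Type v} [Group G] [Group W] (φ : G →* W) (K : Subgroup W)
    [K.FiniteIndex] : (K.comap φ).FiniteIndex := by
  constructor
  rw [Subgroup.index_comap]
  exact (Subgroup.instFiniteIndex_subgroupOf K φ.range).index_ne_zero

/-- Pull back of virtual retracts along a homomorphism injective on the subgroup. -/
theorem VirtualRetract.of_map {G : Type u} {W : Type v} [Group G] [Group W] (φ : G →* W)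
    (H : Subgroup G) (hinj : ∀ h ∈ H, φ h = 1 → h = 1) (hW : VirtualRetract (H.map φ)) :
    VirtualRetract H := by
  obtain ⟨K, hK, hHK, ρ, hρ⟩ := hW
  have hφH : Function.Injective (φ.subgroupMap H) := by
    intro a b hab
    have h1 : φ a = φ b := congrArg Subtype.val hab
    have h2 : φ ((a : G)⁻¹ * b) = 1 := by rw [map_mul, map_inv, h1, inv_mul_cancel]
    have h3 := hinj _ (H.mul_mem (H.inv_mem a.2) b.2) h2
    exact Subtype.ext (inv_mul_eq_one.mp h3)
  let e : H ≃* H.map φ := MulEquiv.ofBijective (φ.subgroupMap H)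
    ⟨hφH, φ.subgroupMap_surjective H⟩
  refine ⟨K.comap φ, comap_fi φ K, ?_, ?_⟩
  · intro h hh
    exact hHK (Subgroup.mem_map_of_mem φ hh)
  · refine ⟨e.symm.toMonoidHom.comp (ρ.comp (φ.subgroupComap K)), ?_⟩
    intro k hk
    have h1 : ρ (φ.subgroupComap K k) = ⟨φ k, Subgroup.mem_map_of_mem φ hk⟩ :=
      hρ (φ.subgroupComap K k) (Subgroup.mem_map_of_mem φ hk)
    change e.symm (ρ (φ.subgroupComap K k)) = _
    rw [h1, MulEquiv.symm_apply_eq]
    rfl

theorem VirtualRetract.of_finite {W : Type v} [Group W] [Finite W] (H : Subgroup W) :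
    VirtualRetract H :=
  ⟨H, inferInstance, le_rfl, MonoidHom.id _, fun _ _ => rfl⟩

/-- Being a virtual retract is invariant under conjugation. -/
theorem VirtualRetract.conj {G : Type u} [Group G] (g x : G)
    (h : VirtualRetract (Subgroup.zpowers (x * g * x⁻¹))) :
    VirtualRetract (Subgroup.zpowers g) := by
  refine VirtualRetract.of_map (MulAut.conj x).toMonoidHom _ ?_ ?_
  · intro h _ hh
    exact (MulAut.conj x).injective (by simpa using hh)
  · rw [MonoidHom.map_zpowers]
    exact h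

/-- A homomorphism from a subgroup of finite index containing `g` to `ℤ` which does not vanish on
`g` yields a virtual retraction onto the subgroup generated by `g`. -/
theorem VirtualRetract.of_hom {G : Type u} [Group G] (g : G) (K : Subgroup G) [hKf : K.FiniteIndex]
    (hg : g ∈ K) (χ : K →* Multiplicative ℤ) (hχ : χ ⟨g, hg⟩ ≠ 1) :
    VirtualRetract (Subgroup.zpowers g) := by
  set m : ℤ := Multiplicative.toAdd (χ ⟨g, hg⟩) with hm
  have hm0 : m ≠ 0 := by
    intro h
    apply hχ
    exact Multiplicative.toAdd.injective (by simpa [hm] using h)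
  -- the subgroup of elements of `K` with value divisible by `m`
  let L : Subgroup K := (Subgroup.zpowers (Multiplicative.ofAdd m)).comap χ
  have hLf : (Subgroup.zpowers (Multiplicative.ofAdd m)).FiniteIndex := by
    have h1 : (AddSubgroup.zmultiples m).index = m.natAbs := Int.index_zmultiples m
    have h2 : (Subgroup.zpowers (Multiplicative.ofAdd m)).index = m.natAbs := by
      rw [← h1]
      rfl
    exact ⟨by rw [h2]; exact Int.natAbs_ne_zero.mpr hm0⟩
  have hL : L.FiniteIndex := comap_fi _ _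
  let K' : Subgroup G := L.map K.subtype
  have hK' : K'.FiniteIndex := by
    constructor
    have := Subgroup.index_map_subtype (H := K) L
    rw [this]
    exact mul_ne_zero hL.index_ne_zero hKf.index_ne_zero
  have hK'K : K' ≤ K := by
    rintro _ ⟨k, _, rfl⟩
    exact k.2
  have hdvd : ∀ k : K', m ∣ Multiplicative.toAdd (χ ⟨k, hK'K k.2⟩) := by
    rintro ⟨_, ⟨k, hk, rfl⟩⟩
    obtain ⟨n, hn⟩ := hk
    refine ⟨n, ?_⟩
    have h3 : χ k = Multiplicative.ofAdd m ^ n := hn.symm
    change Multiplicative.toAdd (χ k) = _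
    rw [h3, toAdd_zpow, toAdd_ofAdd, smul_eq_mul, mul_comm]
  -- the exponent
  let ex : K' → ℤ := fun k => Multiplicative.toAdd (χ ⟨k, hK'K k.2⟩) / m
  have hex : ∀ k : K', ex k * m = Multiplicative.toAdd (χ ⟨k, hK'K k.2⟩) := fun k =>
    Int.ediv_mul_cancel (hdvd k)
  have hexmul : ∀ k l : K', ex (k * l) = ex k + ex l := by
    intro k l
    have h1 := hex (k * l)
    have h2 : χ ⟨((k * l : K') : G), hK'K (k * l).2⟩ = χ ⟨k, hK'K k.2⟩ * χ ⟨l, hK'K l.2⟩ := by
      rw [← map_mul]; rfl
    rw [h2, toAdd_mul, ← hex k, ← hex l, ← add_mul] at h1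
    exact mul_right_cancel₀ hm0 h1
  let ρ : K' →* Subgroup.zpowers g :=
    MonoidHom.mk' (fun k => ⟨g ^ ex k, Subgroup.zpow_mem _ (Subgroup.mem_zpowers g) _⟩) (by
      intro k l
      apply Subtype.ext
      change g ^ ex (k * l) = g ^ ex k * g ^ ex l
      rw [hexmul, zpow_add])
  have hgK' : g ∈ K' := by
    refine ⟨⟨g, hg⟩, ?_, rfl⟩
    exact ⟨1, by simp [hm]⟩
  refine ⟨K', hK', by rwa [Subgroup.zpowers_le], ρ, ?_⟩
  rintro ⟨k, hk⟩ hkg
  have hkg' : ∃ n : ℤ, g ^ n = k := hkg
  obtain ⟨n, rfl⟩ := hkg'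
  apply Subtype.ext
  change g ^ ex ⟨g ^ n, hk⟩ = g ^ n
  congr 1
  have h1 := hex ⟨g ^ n, hk⟩
  have h2 : χ ⟨g ^ n, hK'K hk⟩ = (χ ⟨g, hg⟩) ^ n := by
    rw [← map_zpow]; rfl
  rw [h2, toAdd_zpow, smul_eq_mul, ← hm] at h1
  exact mul_right_cancel₀ hm0 h1

end Pool.Agent.Helper66K9.VRC
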