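import Pool.Agent.Helper66K9.VRC.Glue

/-!
# The construction of actions of amalgamated free products
-/

set_option autoImplicit false

namespace Pool.Agent.Helper66K9.VRC

universe u v w

open Equiv

variable {P Q G : Type u} [Group P] [Group Q] [Group G] {R : Subgroup P}
    {S : Subgroup Q} {e : R ≃* S} {i : P →* G} {j : Q →* G}

section Space

variable {P₀ : Subgroup P} {X : Type u} (f : X → P₀ →* M)

/-- the shift -/
def sh : Perm (Esp P₀ f) := U f (1, Multiplicative.ofAdd 1)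

theorem sh_zpow (n : ℤ) : sh f ^ n = U f (1, Multiplicative.ofAdd n) := by
  unfold sh
  rw [← map_zpow]
  congr 1
  ext
  · simp
  · change Multiplicative.toAdd ((Multiplicative.ofAdd (1 : ℤ)) ^ n) = _
    rw [toAdd_zpow]
    simp

theorem sh_zpow_pt (n : ℤ) (x : X) (p : P) (m : M) :
    (sh f ^ n) (pt f x p m) = pt f x p (Multiplicative.ofAdd n * m) := by
  rw [sh_zpow, U_pt, one_mul]

/-- The projection to the set of the `ℤ`-orbits. -/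
def proj (z : Esp P₀ f) : X × (P ⧸ P₀) :=
  (z.1, Quotient.liftOn' z.2 (fun a => (a.1 : P ⧸ P₀)) (by
    intro a b hab
    rw [QuotientGroup.leftRel_apply] at hab
    obtain ⟨h, -⟩ := mem_graph.mp hab
    exact QuotientGroup.eq.mpr h))

theorem proj_pt (x : X) (p : P) (m : M) : proj f (pt f x p m) = (x, (p : P ⧸ P₀)) := rfl

theorem proj_eq_iff (z z' : Esp P₀ f) : proj f z = proj f z' ↔ ∃ n : ℤ, z' = (sh f ^ n) z := by
  obtain ⟨x, p, m, rfl⟩ := exists_pt f z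
  obtain ⟨x', p', m', rfl⟩ := exists_pt f z'
  rw [proj_pt, proj_pt, Prod.mk.injEq, QuotientGroup.eq]
  constructor
  · rintro ⟨rfl, h⟩
    refine ⟨Multiplicative.toAdd (m' * f x ⟨p⁻¹ * p', h⟩ * m⁻¹), ?_⟩
    rw [sh_zpow_pt, ofAdd_toAdd, inv_mul_cancel_right, eq_comm, pt_eq]
    exact ⟨rfl, h, rfl⟩
  · rintro ⟨n, hn⟩
    rw [sh_zpow_pt, eq_comm, pt_eq] at hn
    exact ⟨hn.1, hn.2.choose⟩

theorem sh_free (z : Esp P₀ f) (n : ℤ) (h : (sh f ^ n) z = z) : n = 0 := by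
  obtain ⟨x, p, m, rfl⟩ := exists_pt f z
  rw [sh_zpow_pt, pt_eq] at h
  obtain ⟨-, h1, h2⟩ := h
  have h3 : f x ⟨p⁻¹ * p, h1⟩ = 1 := by
    have : (⟨p⁻¹ * p, h1⟩ : P₀) = 1 := Subtype.ext (inv_mul_cancel p)
    rw [this, map_one]
  rw [h3, mul_one, mul_eq_right] at h2
  exact h2

theorem proj_surj : Function.Surjective (proj f) := by
  rintro ⟨x, c⟩
  obtain ⟨p, rfl⟩ := QuotientGroup.mk_surjective c
  exact ⟨pt f x p 1, rfl⟩

/-- The action of `P`. -/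
def act : P →* Perm (Esp P₀ f) := (U f).comp (MonoidHom.inl P M)

theorem act_pt (p : P) (x : X) (p' : P) (m : M) :
    act f p (pt f x p' m) = pt f x (p * p') m := by
  change U f (p, 1) _ = _
  rw [U_pt, one_mul]

theorem act_sh (p : P) (z : Esp P₀ f) : act f p (sh f z) = sh f (act f p z) := by
  change (U f (p, 1)) ((U f (1, Multiplicative.ofAdd 1)) z) =
    (U f (1, Multiplicative.ofAdd 1)) ((U f (p, 1)) z)
  rw [← Perm.mul_apply, ← Perm.mul_apply, ← map_mul, ← map_mul]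
  congr 2
  simp

end Space

/-- A system of representatives for the orbits of `R` on `X × P/P₀`. -/
def Reps (R P₀ : Subgroup P) {X Λ : Type u} (α : Λ → X) (ξ : Λ → P) : Prop :=
  (∀ x p, ∃ l, α l = x ∧ ∃ r ∈ R, ∃ p₀ ∈ P₀, p = r * ξ l * p₀) ∧
  ∀ l m, α l = α m → (∃ r ∈ R, ∃ p₀ ∈ P₀, ξ m = r * ξ l * p₀) → l = m

/-- the homomorphism `R × ℤ → P × ℤ` -/
def inclR (R : Subgroup P) : R × M →* P × M := R.subtype.prodMap (MonoidHom.id M)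

section Orbits

variable {P₀ : Subgroup P} {X Λ : Type u} (f : X → P₀ →* M) {α : Λ → X} {ξ : Λ → P}

theorem orb_cover (hα : Reps R P₀ α ξ) (δ : Λ → M) (z : Esp P₀ f) :
    ∃ l, ∃ a : R × M, U f (inclR R a) (pt f (α l) (ξ l) (δ l)) = z := by
  obtain ⟨x, p, m, rfl⟩ := exists_pt f z
  obtain ⟨l, rfl, r, hr, p₀, hp₀, rfl⟩ := hα.1 x p
  refine ⟨l, (⟨r, hr⟩, m * f (α l) ⟨p₀, hp₀⟩ * (δ l)⁻¹), ?_⟩
  rw [U_pt]
  change pt f (α l) (r * ξ l) (m * f (α l) ⟨p₀, hp₀⟩ * (δ l)⁻¹ * δ l) = _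
  rw [pt_eq, inv_mul_cancel_right]
  have h1 : (r * ξ l)⁻¹ * (r * ξ l * p₀) = p₀ := by group
  have h2 : (r * ξ l)⁻¹ * (r * ξ l * p₀) ∈ P₀ := by rw [h1]; exact hp₀
  have h3 : (⟨(r * ξ l)⁻¹ * (r * ξ l * p₀), h2⟩ : P₀) = ⟨p₀, hp₀⟩ := Subtype.ext h1
  exact ⟨rfl, h2, by rw [h3]⟩

theorem orb_inj (hα : Reps R P₀ α ξ) (δ : Λ → M) (l m : Λ) (a : R × M)
    (h : U f (inclR R a) (pt f (α l) (ξ l) (δ l)) = pt f (α m) (ξ m) (δ m)) : l = m := by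
  rw [U_pt, pt_eq] at h
  obtain ⟨h1, h2, -⟩ := h
  refine hα.2 l m h1 ⟨a.1, a.1.2, _, h2, ?_⟩
  change ξ m = a.1 * ξ l * ((a.1 * ξ l)⁻¹ * ξ m)
  group

theorem aux_comm (a d w : M) : a * d = d * w⁻¹ ↔ a * w = 1 := by
  rw [mul_comm d, mul_left_inj, eq_inv_iff_mul_eq_one]

theorem orb_stab [P₀.Normal] (δ : Λ → M) (l : Λ) (a : R × M) :
    U f (inclR R a) (pt f (α l) (ξ l) (δ l)) = pt f (α l) (ξ l) (δ l) ↔
      ∃ h : (ξ l)⁻¹ * a.1 * ξ l ∈ P₀, a.2 * f (α l) ⟨(ξ l)⁻¹ * a.1 * ξ l, h⟩ = 1 := by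
  rw [U_pt, pt_eq]
  have e1 : ((inclR R a).1 * ξ l)⁻¹ * ξ l = ((ξ l)⁻¹ * a.1 * ξ l)⁻¹ := by
    change ((a.1 : P) * ξ l)⁻¹ * ξ l = _
    group
  have e2 : ∀ (h1 : ((inclR R a).1 * ξ l)⁻¹ * ξ l ∈ P₀) (h3 : (ξ l)⁻¹ * a.1 * ξ l ∈ P₀),
      f (α l) ⟨((inclR R a).1 * ξ l)⁻¹ * ξ l, h1⟩ = (f (α l) ⟨(ξ l)⁻¹ * a.1 * ξ l, h3⟩)⁻¹ := by
    intro h1 h3
    have h4 : (⟨((inclR R a).1 * ξ l)⁻¹ * ξ l, h1⟩ : P₀) = ⟨(ξ l)⁻¹ * a.1 * ξ l, h3⟩⁻¹ :=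
      Subtype.ext e1
    rw [h4, map_inv]
  constructor
  · rintro ⟨-, h1, h2⟩
    have h3 : (ξ l)⁻¹ * a.1 * ξ l ∈ P₀ := by
      rw [e1] at h1
      exact P₀.inv_mem_iff.mp h1
    refine ⟨h3, ?_⟩
    rw [e2 h1 h3] at h2
    exact (aux_comm _ _ _).mp h2
  · rintro ⟨h3, h2⟩
    have h1 : ((inclR R a).1 * ξ l)⁻¹ * ξ l ∈ P₀ := by
      rw [e1]
      exact P₀.inv_mem_iff.mpr h3
    refine ⟨rfl, h1, ?_⟩
    rw [e2 h1 h3]
    exact (aux_comm _ _ _).mpr h2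

end Orbits

/-- The twisted value of `f` on the generator `r₀` of `R ∩ P₀`. -/
def val (P₀ : Subgroup P) [hN : P₀.Normal] (f : P₀ →* M) (r₀ : P) (hr₀ : r₀ ∈ P₀) (ξ : P) : M :=
  f ⟨ξ⁻¹ * r₀ * ξ, by simpa using hN.conj_mem r₀ hr₀ ξ⁻¹⟩

theorem val_zpow (P₀ : Subgroup P) [hN : P₀.Normal] (f : P₀ →* M) (r₀ : P) (hr₀ : r₀ ∈ P₀) (ξ : P)
    (k : ℤ) (h : ξ⁻¹ * r₀ ^ k * ξ ∈ P₀) : f ⟨ξ⁻¹ * r₀ ^ k * ξ, h⟩ = (val P₀ f r₀ hr₀ ξ) ^ k := by
  unfold val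
  rw [← map_zpow]
  congr 1
  apply Subtype.ext
  have := conj_zpow (i := k) (a := ξ⁻¹) (b := r₀)
  rw [inv_inv] at this
  exact this.symm

/-- The basic construction. -/
theorem construct (h : IsAmalgam e i j) (P₀ : Subgroup P) [P₀.Normal] (Q₀ : Subgroup Q)
    [Q₀.Normal] (r₀ : R) (hP₀ : ∀ r : R, (r : P) ∈ P₀ ↔ ∃ k : ℤ, r = r₀ ^ k)
    (hQ₀ : ∀ s : S, (s : Q) ∈ Q₀ ↔ ∃ k : ℤ, s = (e r₀) ^ k)
    {X Y Λ : Type u} (α : Λ → X) (ξ : Λ → P) (hα : Reps R P₀ α ξ)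
    (β : Λ → Y) (η : Λ → Q) (hβ : Reps S Q₀ β η)
    (f : X → P₀ →* M) (f' : Y → Q₀ →* M) (hr : (r₀ : P) ∈ P₀) (hs : (e r₀ : Q) ∈ Q₀)
    (hw : ∀ l, val P₀ (f (α l)) r₀ hr (ξ l) = val Q₀ (f' (β l)) (e r₀) hs (η l))
    (δ : Λ → M) :
    ∃ φ : G →* Perm (Esp P₀ f), ShiftSpace φ (sh f) (proj f) ∧ (∀ p, φ (i p) = act f p) ∧
      ∃ Θ : Esp P₀ f ≃ Esp Q₀ f', (∀ q z, Θ (φ (j q) z) = act f' q (Θ z)) ∧
        (∀ z, Θ (sh f z) = sh f' (Θ z)) ∧ ∀ l, Θ (pt f (α l) (ξ l) 1) = pt f' (β l) (η l) (δ l) := by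
  -- the homomorphism `R × ℤ → Q × ℤ`
  let τ : R × M →* S × M := e.toMonoidHom.prodMap (MonoidHom.id M)
  have hτ : ∀ a : S × M, ∃ b : R × M, τ b = a := by
    rintro ⟨s, n⟩
    exact ⟨(e.symm s, n), by simp [τ]⟩
  obtain ⟨Θ, h1, h2⟩ := matching ((U f).comp (inclR R)) ((U f').comp ((inclR S).comp τ))
    (fun l => pt f (α l) (ξ l) 1) (fun l => pt f' (β l) (η l) (δ l))
    (fun z => orb_cover f hα (fun _ => 1) z) (fun l m a => orb_inj f hα (fun _ => 1) l m a)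
    (fun z => by
      obtain ⟨l, a, ha⟩ := orb_cover f' hβ δ z
      obtain ⟨b, rfl⟩ := hτ a
      exact ⟨l, b, ha⟩)
    (fun l m a => orb_inj f' hβ δ l m (τ a))
    (by
      intro l a
      have e1 := orb_stab (R := R) (α := α) (ξ := ξ) f (fun _ => 1) l a
      have e2 := orb_stab (R := S) (α := β) (ξ := η) f' δ l (τ a)
      refine e1.trans (Iff.trans ?_ e2.symm)
      have c1 : ∀ (ξ : P) (r : R), ξ⁻¹ * r * ξ ∈ P₀ ↔ ∃ k : ℤ, r = r₀ ^ k := by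
        intro ξ r
        rw [← hP₀]
        constructor
        · intro h3
          have := ‹P₀.Normal›.conj_mem _ h3 ξ
          simpa [mul_assoc] using this
        · intro h3
          have := ‹P₀.Normal›.conj_mem _ h3 ξ⁻¹
          simpa using this
      have c2 : ∀ (η : Q) (s : S), η⁻¹ * s * η ∈ Q₀ ↔ ∃ k : ℤ, s = (e r₀) ^ k := by
        intro η s
        rw [← hQ₀]
        constructor
        · intro h3
          have := ‹Q₀.Normal›.conj_mem _ h3 η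
          simpa [mul_assoc] using this
        · intro h3
          have := ‹Q₀.Normal›.conj_mem _ h3 η⁻¹
          simpa using this
      obtain ⟨r, n⟩ := a
      constructor
      · rintro ⟨h3, h4⟩
        obtain ⟨k, rfl⟩ := (c1 _ _).mp h3
        have h5 : (η l)⁻¹ * (e (r₀ ^ k) : S) * (η l) ∈ Q₀ := (c2 _ _).mpr ⟨k, map_zpow _ _ _⟩
        refine ⟨h5, ?_⟩
        change n * _ = 1 at h4
        change n * _ = 1
        rw [← h4]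
        congr 1
        have h6 : ((r₀ ^ k : R) : P) = (r₀ : P) ^ k := Subgroup.coe_zpow _ _ _
        have h7 : ((e (r₀ ^ k) : S) : Q) = ((e r₀ : S) : Q) ^ k := by
          rw [map_zpow]; exact Subgroup.coe_zpow _ _ _
        have h8 : (ξ l)⁻¹ * (r₀ : P) ^ k * ξ l ∈ P₀ := by rw [← h6]; exact h3
        have h9 : (η l)⁻¹ * ((e r₀ : S) : Q) ^ k * η l ∈ Q₀ := by rw [← h7]; exact h5
        have h10 := val_zpow P₀ (f (α l)) r₀ hr (ξ l) k h8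
        have h11 := val_zpow Q₀ (f' (β l)) (e r₀) hs (η l) k h9
        rw [hw, ← h11] at h10
        have h12 : (⟨(ξ l)⁻¹ * ((r₀ ^ k : R) : P) * ξ l, h3⟩ : P₀) = ⟨_, h8⟩ :=
          Subtype.ext (by simp only [h6])
        have h13 : (⟨(η l)⁻¹ * ((e (r₀ ^ k) : S) : Q) * η l, h5⟩ : Q₀) = ⟨_, h9⟩ :=
          Subtype.ext (by simp only [h7])
        change f' (β l) ⟨(η l)⁻¹ * ((e (r₀ ^ k) : S) : Q) * η l, h5⟩ =
          f (α l) ⟨(ξ l)⁻¹ * ((r₀ ^ k : R) : P) * ξ l, h3⟩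
        rw [h12, h13, h10]
      · rintro ⟨h5, h4⟩
        obtain ⟨k, hk⟩ := (c2 _ _).mp h5
        have hk' : r = r₀ ^ k := by
          apply e.injective
          rw [map_zpow]
          exact hk
        subst hk'
        have h3 : (ξ l)⁻¹ * ((r₀ ^ k : R) : P) * (ξ l) ∈ P₀ := (c1 _ _).mpr ⟨k, rfl⟩
        refine ⟨h3, ?_⟩
        change n * _ = 1 at h4
        change n * _ = 1
        rw [← h4]
        congr 1
        have h6 : ((r₀ ^ k : R) : P) = (r₀ : P) ^ k := Subgroup.coe_zpow _ _ _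
        have h7 : ((e (r₀ ^ k) : S) : Q) = ((e r₀ : S) : Q) ^ k := by
          rw [map_zpow]; exact Subgroup.coe_zpow _ _ _
        have h8 : (ξ l)⁻¹ * (r₀ : P) ^ k * ξ l ∈ P₀ := by rw [← h6]; exact h3
        have h9 : (η l)⁻¹ * ((e r₀ : S) : Q) ^ k * η l ∈ Q₀ := by rw [← h7]; exact h5
        have h10 := val_zpow P₀ (f (α l)) r₀ hr (ξ l) k h8
        have h11 := val_zpow Q₀ (f' (β l)) (e r₀) hs (η l) k h9
        rw [hw, ← h11] at h10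
        have h12 : (⟨(ξ l)⁻¹ * ((r₀ ^ k : R) : P) * ξ l, h3⟩ : P₀) = ⟨_, h8⟩ :=
          Subtype.ext (by simp only [h6])
        have h13 : (⟨(η l)⁻¹ * ((e (r₀ ^ k) : S) : Q) * η l, h5⟩ : Q₀) = ⟨_, h9⟩ :=
          Subtype.ext (by simp only [h7])
        change f (α l) ⟨(ξ l)⁻¹ * ((r₀ ^ k : R) : P) * ξ l, h3⟩ =
          f' (β l) ⟨(η l)⁻¹ * ((e (r₀ ^ k) : S) : Q) * η l, h5⟩
        rw [h12, h13, h10])
  have h3 : ∀ z, Θ (sh f z) = sh f' (Θ z) := fun z => by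
    have := h1 (1, Multiplicative.ofAdd 1) z
    have e1 : ((U f).comp (inclR R)) (1, Multiplicative.ofAdd 1) = sh f := rfl
    have e2 : ((U f').comp ((inclR S).comp τ)) (1, Multiplicative.ofAdd 1) = sh f' := by
      change U f' ((((e 1 : S) : Q)), Multiplicative.ofAdd 1) = U f' (1, Multiplicative.ofAdd 1)
      rw [map_one]
      rfl
    rw [e1, e2] at this
    exact this
  obtain ⟨φ, h4, h5, h6⟩ := glue h (act f) (act f') (sh f) (sh f') (act_sh f) (act_sh f') Θ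
    (fun r z => h1 (r, 1) z) h3
  exact ⟨φ, ⟨h6, sh_free f, proj_surj f, proj_eq_iff f⟩, h4, Θ, h5, h3, h2⟩

end Pool.Agent.Helper66K9.VRC
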