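import Pool.Agent.Helper66K9.VRC.Sep
import Pool.Agent.Helper66K9.VRC.Construct

/-!
# Compatible normal subgroups and classes
-/

set_option autoImplicit false

namespace Pool.Agent.Helper66K9.VRC

universe u

variable {P Q : Type u} [Group P] [Group Q]

theorem equiv_fi {R S : Type*} [Group R] [Group S] (e : R ≃* S) (r : R)
    (hr : (Subgroup.zpowers r).FiniteIndex) : (Subgroup.zpowers (e r)).FiniteIndex := by
  have h1 : Subgroup.zpowers (e r) = (Subgroup.zpowers r).comap e.symm.toMonoidHom := by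
    ext x
    constructor
    · rintro ⟨n, rfl⟩
      refine ⟨n, ?_⟩
      change r ^ n = e.symm ((e r) ^ n)
      rw [map_zpow, MulEquiv.symm_apply_apply]
    · rintro ⟨n, hn⟩
      refine ⟨n, ?_⟩
      have h2 : r ^ n = e.symm x := hn
      change (e r) ^ n = x
      rw [← map_zpow, h2, MulEquiv.apply_symm_apply]
  rw [h1]
  exact comap_fi _ _

/-- Normal subgroups of finite index with the same trace on the amalgamated subgroup. -/
theorem compat (hP : PropVRC P) (hQ : PropVRC Q) {R : Subgroup P} {S : Subgroup Q} (e : R ≃* S)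
    (r : R) (hr : (Subgroup.zpowers r).FiniteIndex) (MP : Subgroup P) [MP.FiniteIndex]
    (MQ : Subgroup Q) [MQ.FiniteIndex] :
    ∃ (P₀ : Subgroup P) (Q₀ : Subgroup Q) (r₀ : R), P₀.Normal ∧ P₀.FiniteIndex ∧ Q₀.Normal ∧
      Q₀.FiniteIndex ∧ P₀ ≤ MP ∧ Q₀ ≤ MQ ∧ (∀ x : R, (x : P) ∈ P₀ ↔ ∃ k : ℤ, x = r₀ ^ k) ∧
      (∀ s : S, (s : Q) ∈ Q₀ ↔ ∃ k : ℤ, s = (e r₀) ^ k) ∧
      ∃ f : Q₀ →* M, ∀ (k : ℤ) (h : ((e r₀ : S) : Q) ^ k ∈ Q₀), f ⟨_, h⟩ = 1 → r₀ ^ k = 1 := by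
  by_cases hfin : IsOfFinOrder r
  · have h1 : Finite (Subgroup.zpowers r) := hfin.finite_zpowers.to_subtype
    have hRf : Finite R := (Subgroup.finite_iff_finite_and_finiteIndex (H := Subgroup.zpowers r)).mpr
      ⟨h1, hr⟩
    have hSf : Finite S := Finite.of_equiv R e.toEquiv
    obtain ⟨NP, hNP, hNPf, hNP1⟩ := avoid_finite hP (fun x : R => (x : P))
    obtain ⟨NQ, hNQ, hNQf, hNQ1⟩ := avoid_finite hQ (fun x : S => (x : Q))
    refine ⟨(MP ⊓ NP).normalCore, (MQ ⊓ NQ).normalCore, 1, inferInstance, inferInstance,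
      inferInstance, inferInstance, fun x hx => ((MP ⊓ NP).normalCore_le hx).1,
      fun x hx => ((MQ ⊓ NQ).normalCore_le hx).1, ?_, ?_, 1, ?_⟩
    · intro x
      constructor
      · intro hx
        refine ⟨1, ?_⟩
        have := hNP1 x ((MP ⊓ NP).normalCore_le hx).2
        rw [one_zpow]
        exact Subtype.ext this
      · rintro ⟨k, rfl⟩
        rw [one_zpow]
        exact Subgroup.one_mem _
    · intro x
      constructor
      · intro hx
        refine ⟨1, ?_⟩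
        have := hNQ1 x ((MQ ⊓ NQ).normalCore_le hx).2
        rw [map_one, one_zpow]
        exact Subtype.ext this
      · rintro ⟨k, rfl⟩
        rw [map_one, one_zpow]
        exact Subgroup.one_mem _
    · intro k _ _
      exact one_zpow k
  · have hrP : ¬ IsOfFinOrder (r : P) := fun h =>
      hfin ((Function.Injective.isOfFinOrder_iff (f := R.subtype) R.subtype_injective).mp h)
    have hrQ : ¬ IsOfFinOrder ((e r : S) : Q) := fun h =>
      hfin ((Function.Injective.isOfFinOrder_iff (f := S.subtype.comp e.toMonoidHom)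
        (S.subtype_injective.comp e.injective)).mp h)
    obtain ⟨NR, hNR, hNRf, hNR1⟩ := cut_vc hP r hr
    obtain ⟨NS, hNS, hNSf, hNS1⟩ := cut_vc hQ (e r) (equiv_fi e r hr)
    obtain ⟨k₁, hk₁, h1⟩ := potency hP (r : P) hrP (MP ⊓ NR)
    obtain ⟨k₂, hk₂, h2⟩ := potency hQ ((e r : S) : Q) hrQ (MQ ⊓ NS)
    obtain ⟨P₀, hP₀, hP₀f, hP₀M, hP₀iff, -⟩ := h1 k₂ hk₂
    obtain ⟨Q₀, hQ₀, hQ₀f, hQ₀M, hQ₀iff, f, hf⟩ := h2 k₁ hk₁
    refine ⟨P₀, Q₀, r ^ (k₁ * k₂), hP₀, hP₀f, hQ₀, hQ₀f, fun x hx => (hP₀M hx).1,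
      fun x hx => (hQ₀M hx).1, ?_, ?_, f, ?_⟩
    · intro x
      constructor
      · intro hx
        obtain ⟨n, rfl⟩ := hNR1 x (hP₀M hx).2
        rw [Subgroup.coe_zpow, hP₀iff] at hx
        obtain ⟨k, rfl⟩ := hx
        refine ⟨k, ?_⟩
        rw [zpow_mul, zpow_natCast]
      · rintro ⟨k, rfl⟩
        rw [Subgroup.coe_zpow, Subgroup.coe_pow, ← zpow_natCast, ← zpow_mul, hP₀iff]
        exact dvd_mul_right _ _
    · intro x
      constructor
      · intro hx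
        obtain ⟨n, rfl⟩ := hNS1 x (hQ₀M hx).2
        rw [Subgroup.coe_zpow, hQ₀iff] at hx
        obtain ⟨k, rfl⟩ := hx
        refine ⟨k, ?_⟩
        rw [zpow_mul, zpow_natCast, map_pow, mul_comm k₂ k₁]
      · rintro ⟨k, rfl⟩
        rw [Subgroup.coe_zpow, map_pow, Subgroup.coe_pow, ← zpow_natCast, ← zpow_mul, hQ₀iff,
          mul_comm k₁ k₂]
        exact dvd_mul_right _ _
    · intro k h hk
      have e1 : ((e (r ^ (k₁ * k₂)) : S) : Q) ^ k = ((e r : S) : Q) ^ (((k₁ * k₂ : ℕ) : ℤ) * k) := by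
        rw [map_pow, Subgroup.coe_pow, ← zpow_natCast, ← zpow_mul]
      have h' : ((e r : S) : Q) ^ (((k₁ * k₂ : ℕ) : ℤ) * k) ∈ Q₀ := by rw [← e1]; exact h
      have e2 : (⟨_, h⟩ : Q₀) = ⟨_, h'⟩ := Subtype.ext e1
      rw [e2, hf] at hk
      have hk' : ((k₁ * k₂ : ℕ) : ℤ) * k = 0 := hk
      have hpos : ((k₁ * k₂ : ℕ) : ℤ) ≠ 0 := by
        exact_mod_cast (Nat.mul_pos hk₁ hk₂).ne'
      rcases mul_eq_zero.mp hk' with h3 | h3
      · exact absurd h3 hpos
      · rw [h3, zpow_zero]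

/-- The double cosets. -/
theorem exists_class (R P₀ : Subgroup P) [P₀.FiniteIndex] :
    ∃ (I : Type u) (_ : Finite I) (cl : P → I), Function.Surjective cl ∧
      ∀ p p', cl p = cl p' ↔ ∃ r ∈ R, ∃ p₀ ∈ P₀, p' = r * p * p₀ := by
  refine ⟨MulAction.orbitRel.Quotient R (P ⧸ P₀), inferInstance,
    fun p => Quotient.mk'' (p : P ⧸ P₀), ?_, ?_⟩
  · intro c
    induction c using Quotient.inductionOn' with
    | _ c =>
      obtain ⟨p, rfl⟩ := QuotientGroup.mk_surjective c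
      exact ⟨p, rfl⟩
  · intro p p'
    rw [eq_comm, Quotient.eq'', MulAction.orbitRel_apply, MulAction.mem_orbit_iff]
    constructor
    · rintro ⟨r, hr⟩
      have h1 : (((r : P) * p : P) : P ⧸ P₀) = (p' : P ⧸ P₀) := hr
      rw [QuotientGroup.eq] at h1
      exact ⟨r, r.2, _, h1, by group⟩
    · rintro ⟨r, hr, p₀, hp₀, rfl⟩
      refine ⟨⟨r, hr⟩, ?_⟩
      change (((r : P) * p : P) : P ⧸ P₀) = ((r * p * p₀ : P) : P ⧸ P₀)
      rw [QuotientGroup.eq]
      have : (r * p)⁻¹ * (r * p * p₀) = p₀ := by group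
      rw [this]
      exact hp₀

end Pool.Agent.Helper66K9.VRC
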