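import Pool.Agent.Helper66K9.VRC.Basic

/-!
# Words in amalgamated free products
-/

set_option autoImplicit false

namespace Pool.Agent.Helper66K9.VRC

universe u

/-- `G`, with the homomorphisms `i : P → G` and `j : Q → G`, is the amalgamated free product of
`P` and `Q` along `e : R ≃ S` (universal property; only the existence of the lifted homomorphism and
generation are used). -/
structure IsAmalgam {P Q G : Type u} [Group P] [Group Q] [Group G] {R : Subgroup P}
    {S : Subgroup Q} (e : R ≃* S) (i : P →* G) (j : Q →* G) : Prop where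
  agree : ∀ r : R, i r = j (e r)
  gen : Subgroup.closure (Set.range i ∪ Set.range j) = ⊤
  lift : ∀ (W : Type u) [Group W] (a : P →* W) (b : Q →* W), (∀ r : R, a r = b (e r)) →
    ∃ φ : G →* W, (∀ p, φ (i p) = a p) ∧ ∀ q, φ (j q) = b q

variable {P Q G : Type u} [Group P] [Group Q] [Group G] {R : Subgroup P}
    {S : Subgroup Q} {e : R ≃* S} {i : P →* G} {j : Q →* G}

theorem IsAmalgam.symm (h : IsAmalgam e i j) : IsAmalgam e.symm j i where
  agree s := by
    rw [h.agree, MulEquiv.apply_symm_apply]
  gen := by rw [Set.union_comm]; exact h.gen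
  lift W _ a b hab := by
    obtain ⟨φ, h1, h2⟩ := h.lift W b a (fun r => by
      rw [hab, MulEquiv.symm_apply_apply])
    exact ⟨φ, h2, h1⟩

/-- The product of the list of pairs. -/
def ev (i : P →* G) (j : Q →* G) (L : List (P × Q)) : G := (L.map fun x => i x.1 * j x.2).prod

theorem ev_nil : ev i j [] = 1 := rfl

theorem ev_cons (x : P × Q) (L : List (P × Q)) : ev i j (x :: L) = i x.1 * j x.2 * ev i j L := by
  simp [ev]

theorem ev_append (L M : List (P × Q)) : ev i j (L ++ M) = ev i j L * ev i j M := by
  simp [ev]

theorem exists_ev (h : IsAmalgam e i j) (g : G) : ∃ L, g = ev i j L := by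
  have hg : g ∈ Subgroup.closure (Set.range i ∪ Set.range j) := by rw [h.gen]; trivial
  induction hg using Subgroup.closure_induction with
  | mem x hx =>
    rcases hx with ⟨p, rfl⟩ | ⟨q, rfl⟩
    · exact ⟨[(p, 1)], by simp [ev]⟩
    · exact ⟨[(1, q)], by simp [ev]⟩
  | one => exact ⟨[], rfl⟩
  | mul x y _ _ hx hy =>
    obtain ⟨L, rfl⟩ := hx
    obtain ⟨M, rfl⟩ := hy
    exact ⟨L ++ M, (ev_append L M).symm⟩
  | inv x hx' hx =>
    obtain ⟨L, rfl⟩ := hx
    clear hx'
    induction L with
    | nil => exact ⟨[], by simp [ev]⟩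
    | cons x L ih =>
      obtain ⟨M, hM⟩ := ih
      refine ⟨M ++ [(1, x.2⁻¹), (x.1⁻¹, 1)], ?_⟩
      rw [ev_append, ← hM, ev_cons]
      simp [ev, mul_assoc]

theorem good_of_words (h : IsAmalgam e i j) (Good : G → Prop)
    (hconj : ∀ g x, Good (x * g * x⁻¹) → Good g) (hP : ∀ p, Good (i p)) (hQ : ∀ q, Good (j q))
    (hH : ∀ L : List (P × Q), L ≠ [] → (∀ x ∈ L, x.1 ∉ R ∧ x.2 ∉ S) → Good (ev i j L)) :
    ∀ g, Good g := by
  -- rotation of words
  have hrot : ∀ A B : List (P × Q), Good (ev i j (B ++ A)) → Good (ev i j (A ++ B)) := by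
    intro A B hBA
    apply hconj _ (ev i j B)
    rw [ev_append] at hBA ⊢
    rw [show ev i j B * (ev i j A * ev i j B) * (ev i j B)⁻¹ = ev i j B * ev i j A by group]
    exact hBA
  have key : ∀ (n : ℕ) (L : List (P × Q)), L.length = n → Good (ev i j L) := by
    intro n
    induction n using Nat.strong_induction_on with
    | _ n ih =>
      intro L hL
      by_cases hnil : L = []
      · subst hnil
        have := hP 1
        rwa [map_one] at this
      by_cases hall : ∀ x ∈ L, x.1 ∉ R ∧ x.2 ∉ S
      · exact hH L hnil hall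
      push Not at hall
      obtain ⟨x, hx, hx2⟩ := hall
      obtain ⟨A, B, rfl⟩ := List.append_of_mem hx
      by_cases hxR : x.1 ∈ R
      · -- rotate `x` to the end
        have e1 : A ++ x :: B = (A ++ [x]) ++ B := by simp
        rw [e1]
        apply hrot
        rw [← List.append_assoc]
        have hlen : (B ++ A).length + 1 = n := by
          rw [← hL]; simp only [List.length_append, List.length_cons]; omega
        rcases List.eq_nil_or_concat' (B ++ A) with h0 | ⟨C, y, hC⟩
        · rw [h0, List.nil_append, ev_cons, ev_nil, mul_one, h.agree ⟨x.1, hxR⟩, ← map_mul]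
          exact hQ _
        · rw [hC]
          have e2 : ev i j (C ++ [y] ++ [x]) = ev i j (C ++ [(y.1, y.2 * e ⟨x.1, hxR⟩ * x.2)]) := by
            rw [ev_append, ev_append, ev_append, ev_cons, ev_cons, ev_cons, ev_nil]
            simp only [mul_one, map_mul, mul_assoc]
            rw [h.agree ⟨x.1, hxR⟩]
          rw [e2]
          refine ih (C ++ [(y.1, y.2 * e ⟨x.1, hxR⟩ * x.2)]).length ?_ _ rfl
          rw [hC] at hlen
          simp only [List.length_append, List.length_cons, List.length_nil] at hlen ⊢
          omega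
      · have hxS : x.2 ∈ S := by
          by_contra hcon
          exact hcon (hx2 hxR)
        -- rotate `x` to the beginning
        apply hrot
        have hlen : (B ++ A).length + 1 = n := by
          rw [← hL]; simp only [List.length_append, List.length_cons]; omega
        rw [List.cons_append]
        have hag : j x.2 = i (e.symm ⟨x.2, hxS⟩) := by
          rw [h.agree, MulEquiv.apply_symm_apply]
        rcases hBA : B ++ A with _ | ⟨y, C⟩
        · rw [ev_cons, ev_nil, mul_one, hag, ← map_mul]
          exact hP _
        · have e2 : ev i j (x :: y :: C) =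
              ev i j ((x.1 * e.symm ⟨x.2, hxS⟩ * y.1, y.2) :: C) := by
            rw [ev_cons, ev_cons, ev_cons, hag]
            simp only [map_mul, mul_assoc]
          rw [e2]
          refine ih ((x.1 * e.symm ⟨x.2, hxS⟩ * y.1, y.2) :: C).length ?_ _ rfl
          rw [hBA] at hlen
          simp only [List.length_cons] at hlen ⊢
          omega
  intro g
  obtain ⟨L, rfl⟩ := exists_ev h g
  exact key _ L rfl

end Pool.Agent.Helper66K9.VRC
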