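import Pool.Agent.Helper66K9.VRC.Act
import Pool.Agent.Helper66K9.VRC.Words

/-!
# Equivariant matchings and actions of amalgamated free products
-/

set_option autoImplicit false

namespace Pool.Agent.Helper66K9.VRC

universe u v w

open Equiv

section Matching

variable {A : Type*} {X : Type*} {Y : Type*} {Λ : Type*} [Group A]

theorem exists_equivariant (u : A →* Perm X) (v : A →* Perm Y) (x : Λ → X) (y : Λ → Y)
    (hx : ∀ z, ∃ l a, u a (x l) = z) (hx' : ∀ l m a, u a (x l) = x m → l = m)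
    (hs : ∀ l a, u a (x l) = x l → v a (y l) = y l) :
    ∃ f : X → Y, ∀ l a, f (u a (x l)) = v a (y l) := by
  choose l a hla using hx
  refine ⟨fun z => v (a z) (y (l z)), fun m b => ?_⟩
  have h1 : u (b⁻¹ * a (u b (x m))) (x (l (u b (x m)))) = x m := by
    rw [map_mul, Perm.mul_apply, hla, ← Perm.mul_apply, ← map_mul, inv_mul_cancel, map_one,
      Perm.one_apply]
  have h2 := hx' _ _ _ h1
  rw [h2] at h1
  have h3 := hs _ _ h1
  rw [map_mul, Perm.mul_apply, map_inv, Perm.inv_eq_iff_eq] at h3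
  change v (a (u b (x m))) (y (l (u b (x m)))) = _
  rw [h2, h3]

/-- Two actions are isomorphic if there are matching systems of representatives of the orbits
with equal stabilisers. -/
theorem matching (u : A →* Perm X) (v : A →* Perm Y) (x : Λ → X) (y : Λ → Y)
    (hx : ∀ z, ∃ l a, u a (x l) = z) (hx' : ∀ l m a, u a (x l) = x m → l = m)
    (hy : ∀ z, ∃ l a, v a (y l) = z) (hy' : ∀ l m a, v a (y l) = y m → l = m)
    (hs : ∀ l a, u a (x l) = x l ↔ v a (y l) = y l) :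
    ∃ Θ : X ≃ Y, (∀ a z, Θ (u a z) = v a (Θ z)) ∧ ∀ l, Θ (x l) = y l := by
  obtain ⟨f, hf⟩ := exists_equivariant u v x y hx hx' (fun l a => (hs l a).mp)
  obtain ⟨g, hg⟩ := exists_equivariant v u y x hy hy' (fun l a => (hs l a).mpr)
  refine ⟨⟨f, g, ?_, ?_⟩, ?_, ?_⟩
  · intro z
    obtain ⟨l, a, rfl⟩ := hx z
    rw [hf, hg]
  · intro z
    obtain ⟨l, a, rfl⟩ := hy z
    rw [hg, hf]
  · intro a z
    obtain ⟨l, b, rfl⟩ := hx z
    change f (u a (u b (x l))) = v a (f (u b (x l)))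
    rw [← Perm.mul_apply, ← map_mul, hf, hf, map_mul, Perm.mul_apply]
  · intro l
    have := hf l 1
    rwa [map_one, map_one] at this

end Matching

variable {P Q G : Type u} [Group P] [Group Q] [Group G] {R : Subgroup P}
    {S : Subgroup Q} {e : R ≃* S} {i : P →* G} {j : Q →* G}

theorem glue (h : IsAmalgam e i j) {E F : Type u} (U : P →* Perm E) (V : Q →* Perm F)
    (t : Perm E) (s : Perm F) (ht : ∀ p z, U p (t z) = t (U p z))
    (hs : ∀ q z, V q (s z) = s (V q z)) (Θ : E ≃ F)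
    (hΘR : ∀ (r : R) z, Θ (U r z) = V (e r) (Θ z)) (hΘt : ∀ z, Θ (t z) = s (Θ z)) :
    ∃ φ : G →* Perm E, (∀ p, φ (i p) = U p) ∧ (∀ q z, Θ (φ (j q) z) = V q (Θ z)) ∧
      ∀ g z, φ g (t z) = t (φ g z) := by
  let b : Q →* Perm E := MonoidHom.mk' (fun q => (Θ.trans (V q)).trans Θ.symm) (by
    intro q q'
    ext z
    simp)
  obtain ⟨φ, h1, h2⟩ := h.lift (Perm E) U b (by
    intro r
    ext z
    change U r z = Θ.symm (V (e r) (Θ z))
    rw [← hΘR, Equiv.symm_apply_apply])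
  refine ⟨φ, h1, ?_, ?_⟩
  · intro q z
    rw [h2]
    change Θ (Θ.symm (V q (Θ z))) = _
    rw [Equiv.apply_symm_apply]
  · intro g
    have hg : g ∈ Subgroup.closure (Set.range i ∪ Set.range j) := by rw [h.gen]; trivial
    induction hg using Subgroup.closure_induction with
    | mem x hx =>
      rcases hx with ⟨p, rfl⟩ | ⟨q, rfl⟩
      · intro z; rw [h1]; exact ht p z
      · intro z
        rw [h2]
        change Θ.symm (V q (Θ (t z))) = t (Θ.symm (V q (Θ z)))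
        rw [Equiv.symm_apply_eq, hΘt, hΘt, Equiv.apply_symm_apply, hs]
    | one => intro z; simp
    | mul x y _ _ hx hy =>
      intro z
      rw [map_mul, Perm.mul_apply, Perm.mul_apply, hy, hx]
    | inv x _ hx =>
      intro z
      rw [map_inv, Perm.inv_eq_iff_eq, hx, ← Perm.mul_apply (φ x), mul_inv_cancel,
        Perm.one_apply]

/-- `ℤ`, written multiplicatively. -/
abbrev M : Type := Multiplicative ℤ

/-- The graph of the inverse of a homomorphism on a subgroup. -/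
def graph (P₀ : Subgroup P) (f : P₀ →* M) : Subgroup (P × M) where
  carrier := {z | ∃ h : z.1 ∈ P₀, z.2 = (f ⟨z.1, h⟩)⁻¹}
  one_mem' := ⟨P₀.one_mem, by
    change (1 : M) = (f 1)⁻¹
    rw [map_one, inv_one]⟩
  mul_mem' := by
    rintro ⟨a, m⟩ ⟨b, n⟩ ⟨ha, hm⟩ ⟨hb, hn⟩
    refine ⟨P₀.mul_mem ha hb, ?_⟩
    change m * n = (f (⟨a, ha⟩ * ⟨b, hb⟩))⁻¹
    have hm' : m = (f ⟨a, ha⟩)⁻¹ := hm
    have hn' : n = (f ⟨b, hb⟩)⁻¹ := hn
    rw [map_mul, mul_inv, hm', hn']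
  inv_mem' := by
    rintro ⟨a, m⟩ ⟨ha, hm⟩
    refine ⟨P₀.inv_mem ha, ?_⟩
    change m⁻¹ = (f (⟨a, ha⟩⁻¹))⁻¹
    have hm' : m = (f ⟨a, ha⟩)⁻¹ := hm
    rw [map_inv, hm']

theorem mem_graph {P₀ : Subgroup P} {f : P₀ →* M} {z : P × M} :
    z ∈ graph P₀ f ↔ ∃ h : z.1 ∈ P₀, z.2 = (f ⟨z.1, h⟩)⁻¹ := Iff.rfl

/-- The disjoint union of the `P × ℤ`-sets `P ×_{P₀} ℤ` for a family of homomorphisms
`P₀ → ℤ`. -/
def Esp (P₀ : Subgroup P) {X : Type u} (f : X → P₀ →* M) : Type u :=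
  Σ x : X, (P × M) ⧸ graph P₀ (f x)

/-- the class of `(p, n)` in the component `x` -/
def pt {P₀ : Subgroup P} {X : Type u} (f : X → P₀ →* M) (x : X) (p : P) (n : M) : Esp P₀ f :=
  ⟨x, ((p, n) : P × M)⟩

theorem exists_pt {P₀ : Subgroup P} {X : Type u} (f : X → P₀ →* M) (z : Esp P₀ f) :
    ∃ x p n, z = pt f x p n := by
  obtain ⟨x, c⟩ := z
  obtain ⟨⟨p, n⟩, rfl⟩ := QuotientGroup.mk_surjective c
  exact ⟨x, p, n, rfl⟩

theorem pt_eq {P₀ : Subgroup P} {X : Type u} (f : X → P₀ →* M) (x x' : X) (p p' : P) (n n' : M) :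
    pt f x p n = pt f x' p' n' ↔ x = x' ∧ ∃ h : p⁻¹ * p' ∈ P₀, n = n' * f x ⟨p⁻¹ * p', h⟩ := by
  constructor
  · intro h
    have hx : x = x' := congrArg Sigma.fst h
    subst hx
    refine ⟨rfl, ?_⟩
    have h2 : ((p, n) : (P × M) ⧸ graph P₀ (f x)) = ((p', n') : P × M) :=
      eq_of_heq (Sigma.mk.inj h).2
    rw [QuotientGroup.eq] at h2
    obtain ⟨h3, h4⟩ := mem_graph.mp h2
    refine ⟨h3, ?_⟩
    change n⁻¹ * n' = _ at h4
    rw [inv_mul_eq_iff_eq_mul, eq_mul_inv_iff_mul_eq] at h4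
    exact h4.symm
  · rintro ⟨rfl, h3, h4⟩
    unfold pt
    congr 1
    rw [QuotientGroup.eq]
    refine ⟨h3, ?_⟩
    change n⁻¹ * n' = _
    rw [inv_mul_eq_iff_eq_mul, eq_mul_inv_iff_mul_eq]
    exact h4.symm

/-- The action of `P × ℤ`. -/
def U {P₀ : Subgroup P} {X : Type u} (f : X → P₀ →* M) : P × M →* Perm (Esp P₀ f) where
  toFun a := ⟨fun z => ⟨z.1, a • z.2⟩, fun z => ⟨z.1, a⁻¹ • z.2⟩,
    fun z => Sigma.ext rfl (heq_of_eq (inv_smul_smul a z.2)),
    fun z => Sigma.ext rfl (heq_of_eq (smul_inv_smul a z.2))⟩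
  map_one' := Equiv.ext fun z => Sigma.ext rfl (heq_of_eq (one_smul _ z.2))
  map_mul' a b := Equiv.ext fun z => Sigma.ext rfl (heq_of_eq (mul_smul a b z.2))

theorem U_pt {P₀ : Subgroup P} {X : Type u} (f : X → P₀ →* M) (a : P × M) (x : X) (p : P) (n : M) :
    U f a (pt f x p n) = pt f x (a.1 * p) (a.2 * n) := rfl

end Pool.Agent.Helper66K9.VRC
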