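import Pool.Agent.Helper66K9.VRC.Main

/-!
# Hyperbolic elements of amalgamated free products
-/

set_option autoImplicit false

namespace Pool.Agent.Helper66K9.VRC

universe u

open Equiv

variable {P Q G : Type u} [Group P] [Group Q] [Group G] {R : Subgroup P}
    {S : Subgroup Q} {e : R ≃* S} {i : P →* G} {j : Q →* G}

theorem ev_take_succ (L : List (P × Q)) (n : ℕ) (hn : n < L.length) :
    ev i j (L.take (n + 1)) = ev i j (L.take n) * (i (L[n]).1 * j (L[n]).2) := by
  rw [List.take_succ_eq_append_getElem hn, ev_append, ev_cons, ev_nil, mul_one]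

/-- Hyperbolic elements. -/
theorem hyperbolic (h : IsAmalgam e i j) (hP : PropVRC P) (hQ : PropVRC Q) (r : R)
    (hr : (Subgroup.zpowers r).FiniteIndex) (L : List (P × Q)) (hL : L ≠ [])
    (hLx : ∀ x ∈ L, x.1 ∉ R ∧ x.2 ∉ S) :
    VirtualRetract (Subgroup.zpowers (ev i j L)) := by
  classical
  obtain ⟨m, hm⟩ : ∃ m, L.length = m + 1 :=
    ⟨L.length - 1, by have := List.length_pos_iff.mpr hL; omega⟩
  have hlt : ∀ n : ZMod (m + 1), n.val < L.length := fun n => by
    rw [hm]; exact ZMod.val_lt n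
  let p : ZMod (m + 1) → P := fun n => (L[n.val]'(hlt n)).1
  let q : ZMod (m + 1) → Q := fun n => (L[n.val]'(hlt n)).2
  have hp : ∀ n, p n ∉ R := fun n => (hLx _ (List.getElem_mem (hlt n))).1
  have hq : ∀ n, q n ∉ S := fun n => (hLx _ (List.getElem_mem (hlt n))).2
  -- separating subgroups
  have hsP : ∀ n, ∃ N : Subgroup P, (N.Normal ∧ N.FiniteIndex) ∧ ∀ h ∈ R, h⁻¹ * p n ∉ N := by
    intro n
    obtain ⟨N, h1, h2, h3⟩ := sep_vc hP r hr (p n) (hp n)
    exact ⟨N, ⟨h1, h2⟩, h3⟩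
  have hsQ : ∀ n, ∃ N : Subgroup Q, (N.Normal ∧ N.FiniteIndex) ∧ ∀ h ∈ S, h⁻¹ * q n ∉ N := by
    intro n
    obtain ⟨N, h1, h2, h3⟩ := sep_vc hQ (e r) (equiv_fi e r hr) (q n) (hq n)
    exact ⟨N, ⟨h1, h2⟩, h3⟩
  choose NP hNP hNP' using hsP
  choose NQ hNQ hNQ' using hsQ
  obtain ⟨MP, hMPn, hMPf, hMP⟩ := exists_inf NP hNP
  obtain ⟨MQ, hMQn, hMQf, hMQ⟩ := exists_inf NQ hNQ
  obtain ⟨P₀, Q₀, r₀, hP₀n, hP₀f, hQ₀n, hQ₀f, hPM, hQM, hP₀, hQ₀, -⟩ :=
    compat hP hQ e r hr MP MQ
  have hr₀ : (r₀ : P) ∈ P₀ := (hP₀ r₀).mpr ⟨1, (zpow_one _).symm⟩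
  have hs₀ : ((e r₀ : S) : Q) ∈ Q₀ := (hQ₀ (e r₀)).mpr ⟨1, (zpow_one _).symm⟩
  obtain ⟨I, hI, cl, hcls, hcl⟩ := exists_class R P₀
  obtain ⟨J, hJ, cl', hcls', hcl'⟩ := exists_class S Q₀
  choose x hx using hcls
  choose y hy using hcls'
  -- the classes of the letters
  have hclp : ∀ n, cl (p n) ≠ cl 1 := by
    intro n hn
    obtain ⟨s, hs, p₀, hp₀, h1⟩ := (hcl 1 (p n)).mp hn.symm
    apply hNP' n s hs
    apply hMP n
    apply hPM
    rw [h1, mul_one, inv_mul_cancel_left]
    exact hp₀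
  have hclq : ∀ n, cl' (q n) ≠ cl' 1 := by
    intro n hn
    obtain ⟨s, hs, p₀, hp₀, h1⟩ := (hcl' 1 (q n)).mp hn.symm
    apply hNQ' n s hs
    apply hMQ n
    apply hQM
    rw [h1, mul_one, inv_mul_cancel_left]
    exact hp₀
  -- adapted representatives
  let ξ : ZMod (m + 1) → I → P := fun n k => if k = cl 1 then 1 else if k = cl (p n) then p n else x k
  have hξ : ∀ n k, cl (ξ n k) = k := by
    intro n k
    by_cases h1 : k = cl 1
    · simp only [ξ, if_pos h1]; exact h1.symm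
    · by_cases h2 : k = cl (p n)
      · simp only [ξ, if_neg h1, if_pos h2]; exact h2.symm
      · simp only [ξ, if_neg h1, if_neg h2]; exact hx k
  have hξ1 : ∀ n, ξ n (cl 1) = 1 := fun n => if_pos rfl
  have hξp : ∀ n, ξ n (cl (p n)) = p n := fun n => by
    simp only [ξ, if_neg (hclp n), if_pos]
  let η : ZMod (m + 1) → J → Q := fun n k => if k = cl' 1 then 1 else if k = cl' (q n) then q n else y k
  have hη : ∀ n k, cl' (η n k) = k := by
    intro n k
    by_cases h1 : k = cl' 1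
    · simp only [η, if_pos h1]; exact h1.symm
    · by_cases h2 : k = cl' (q n)
      · simp only [η, if_neg h1, if_pos h2]; exact h2.symm
      · simp only [η, if_neg h1, if_neg h2]; exact hy k
  have hη1 : ∀ n, η n (cl' 1) = 1 := fun n => if_pos rfl
  have hηq : ∀ n, η n (cl' (q n)) = q n := fun n => by
    simp only [η, if_neg (hclq n), if_pos]
  -- the matching of the edges
  obtain ⟨τ, hτ⟩ := exists_perm_extend (Λ := ZMod (m + 1) × I × J)
    (Sum.elim (fun n : ZMod (m + 1) => (n, cl 1, cl' 1)) (fun n => (n, cl (p n), cl' 1)))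
    (Sum.elim (fun n : ZMod (m + 1) => (n, cl 1, cl' (q n))) (fun n => (n - 1, cl 1, cl' 1)))
    (by
      rintro (n | n) (k | k) hnk
      · have := congrArg Prod.fst hnk
        exact congrArg Sum.inl this
      · exfalso
        have h1 : n = k := congrArg Prod.fst hnk
        have h2 : cl 1 = cl (p k) := congrArg (fun z => z.2.1) hnk
        exact hclp k h2.symm
      · exfalso
        have h2 : cl (p n) = cl 1 := congrArg (fun z => z.2.1) hnk
        exact hclp n h2
      · have := congrArg Prod.fst hnk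
        exact congrArg Sum.inr this)
    (by
      rintro (n | n) (k | k) hnk
      · have := congrArg Prod.fst hnk
        exact congrArg Sum.inl this
      · exfalso
        have h2 : cl' (q n) = cl' 1 := congrArg (fun z => z.2.2) hnk
        exact hclq n h2
      · exfalso
        have h2 : cl' 1 = cl' (q k) := congrArg (fun z => z.2.2) hnk
        exact hclq k h2.symm
      · have h1 : n - 1 = k - 1 := congrArg Prod.fst hnk
        have h2 : n = k := by
          have := congrArg (· + 1) h1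
          simpa using this
        exact congrArg Sum.inr h2)
  have hτ1 : ∀ n, τ (n, cl 1, cl' 1) = (n, cl 1, cl' (q n)) := fun n => hτ (Sum.inl n)
  have hτ2 : ∀ n, τ (n, cl (p n), cl' 1) = (n - 1, cl 1, cl' 1) := fun n => hτ (Sum.inr n)
  let α : ZMod (m + 1) × I × J → ZMod (m + 1) × J := fun l => (l.1, l.2.2)
  let ξ' : ZMod (m + 1) × I × J → P := fun l => ξ l.1 l.2.1
  let β : ZMod (m + 1) × I × J → ZMod (m + 1) × I := fun l => ((τ l).1, (τ l).2.1)
  let η' : ZMod (m + 1) × I × J → Q := fun l => η (τ l).1 (τ l).2.2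
  have hα : Reps R P₀ α ξ' := by
    constructor
    · rintro ⟨n, b⟩ p
      exact ⟨(n, cl p, b), rfl, (hcl _ _).mp (hξ _ _)⟩
    · rintro ⟨n, a, b⟩ ⟨n', a', b'⟩ h1 h2
      have h3 : a = a' := by
        have h3 := (hcl _ _).mpr h2
        change cl (ξ n a) = cl (ξ n' a') at h3
        rwa [hξ, hξ] at h3
      obtain ⟨h4, h5⟩ := Prod.mk.inj h1
      subst h3
      change n = n' at h4
      change b = b' at h5
      rw [h4, h5]
  have hβ : Reps S Q₀ β η' := by
    constructor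
    · rintro ⟨n, a⟩ q
      refine ⟨τ.symm (n, a, cl' q), ?_, ?_⟩
      · change ((τ (τ.symm (n, a, cl' q))).1, (τ (τ.symm (n, a, cl' q))).2.1) = _
        rw [Equiv.apply_symm_apply]
      · have h1 : η' (τ.symm (n, a, cl' q)) = η n (cl' q) := by
          change η (τ (τ.symm (n, a, cl' q))).1 (τ (τ.symm (n, a, cl' q))).2.2 = _
          rw [Equiv.apply_symm_apply]
        rw [h1]
        exact (hcl' _ _).mp (hη _ _)
    · intro l l' h1 h2
      apply τ.injective
      have h3 : (τ l).2.2 = (τ l').2.2 := by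
        have h3 := (hcl' _ _).mpr h2
        change cl' (η (τ l).1 (τ l).2.2) = cl' (η (τ l').1 (τ l').2.2) at h3
        rwa [hη, hη] at h3
      obtain ⟨h4, h5⟩ := Prod.mk.inj h1
      exact Prod.ext h4 (Prod.ext h5 h3)
  let f : ZMod (m + 1) × J → P₀ →* M := fun _ => 1
  let f' : ZMod (m + 1) × I → Q₀ →* M := fun _ => 1
  let δ : ZMod (m + 1) × I × J → M := fun l =>
    if l.2.1 = cl 1 then Multiplicative.ofAdd 1 else 1
  obtain ⟨φ, hS, hφ, Θ, hΘ, hΘt, hΘl⟩ := construct h P₀ Q₀ r₀ hP₀ hQ₀ α ξ' hα β η' hβ f f' hr₀ hs₀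
    (fun l => rfl) δ
  have hΘ1 : ∀ n, Θ (pt f (n, cl' 1) 1 1) = pt f' (n, cl 1) (q n) (Multiplicative.ofAdd 1) := by
    intro n
    have h1 := hΘl (n, cl 1, cl' 1)
    have h2 : ξ' (n, cl 1, cl' 1) = 1 := hξ1 n
    have h3 : β (n, cl 1, cl' 1) = (n, cl 1) := by
      change ((τ (n, cl 1, cl' 1)).1, (τ (n, cl 1, cl' 1)).2.1) = _
      rw [hτ1]
    have h4 : η' (n, cl 1, cl' 1) = q n := by
      change η (τ (n, cl 1, cl' 1)).1 (τ (n, cl 1, cl' 1)).2.2 = _
      rw [hτ1]
      exact hηq n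
    have h5 : δ (n, cl 1, cl' 1) = Multiplicative.ofAdd 1 := if_pos rfl
    rw [h2, h3, h4, h5] at h1
    exact h1
  have hΘ2 : ∀ n, Θ (pt f (n, cl' 1) (p n) 1) = pt f' (n - 1, cl 1) 1 1 := by
    intro n
    have h1 := hΘl (n, cl (p n), cl' 1)
    have h2 : ξ' (n, cl (p n), cl' 1) = p n := hξp n
    have h3 : β (n, cl (p n), cl' 1) = (n - 1, cl 1) := by
      change ((τ (n, cl (p n), cl' 1)).1, (τ (n, cl (p n), cl' 1)).2.1) = _
      rw [hτ2]
    have h4 : η' (n, cl (p n), cl' 1) = 1 := by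
      change η (τ (n, cl (p n), cl' 1)).1 (τ (n, cl (p n), cl' 1)).2.2 = _
      rw [hτ2]
      exact hη1 _
    have h5 : δ (n, cl (p n), cl' 1) = 1 := if_neg (hclp n)
    rw [h2, h3, h4, h5] at h1
    exact h1
  -- the points on the axis
  let ω : ZMod (m + 1) → Esp P₀ f := fun n => Θ.symm (pt f' (n, cl 1) 1 1)
  have hω : ∀ n, Θ (ω n) = pt f' (n, cl 1) 1 1 := fun n => Equiv.apply_symm_apply _ _
  have hinv : ∀ z, Θ (((sh f) ^ (-1 : ℤ)) z) = ((sh f') ^ (-1 : ℤ)) (Θ z) := by
    intro z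
    rw [zpow_neg_one, zpow_neg_one, Perm.eq_inv_iff_eq, ← hΘt, ← Perm.mul_apply,
      mul_inv_cancel, Perm.one_apply]
  have hstep : ∀ n, φ (i (p n) * j (q n)) (ω n) = ((sh f) ^ (-1 : ℤ)) (ω (n - 1)) := by
    intro n
    have h1 : φ (j (q n)) (ω n) = ((sh f) ^ (-1 : ℤ)) (pt f (n, cl' 1) 1 1) := by
      apply Θ.injective
      rw [hΘ, hω, act_pt, hinv, hΘ1, sh_zpow_pt, mul_one]
      rfl
    rw [map_mul, Perm.mul_apply, h1, hS.comm_zpow, hφ, act_pt, mul_one]
    congr 1
    apply Θ.injective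
    rw [hΘ2, hω]
  have hpre : ∀ n : ℕ, n ≤ m + 1 → φ (ev i j (L.take n)) (ω ((n : ZMod (m + 1)) - 1)) =
      ((sh f) ^ (-(n : ℤ))) (ω (-1)) := by
    intro n
    induction n with
    | zero =>
      intro _
      simp [ev_nil]
    | succ n ih =>
      intro hn
      have hn' : n < L.length := by omega
      rw [ev_take_succ L n hn', map_mul, Perm.mul_apply]
      have hval : ((n : ZMod (m + 1))).val = n := ZMod.val_cast_of_lt (by omega)
      have h1 := hstep (n : ZMod (m + 1))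
      have h2 : p (n : ZMod (m + 1)) = (L[n]).1 := by simp only [p, hval]
      have h3 : q (n : ZMod (m + 1)) = (L[n]).2 := by simp only [q, hval]
      rw [h2, h3] at h1
      have h4 : ((n + 1 : ℕ) : ZMod (m + 1)) - 1 = (n : ZMod (m + 1)) := by push_cast; ring
      rw [h4, h1, hS.comm_zpow, ih (by omega), ← Perm.mul_apply, ← zpow_add]
      congr 2
      push_cast
      ring
  have hfin := hpre (m + 1) le_rfl
  have h1 : L.take (m + 1) = L := by rw [← hm, List.take_length]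
  have h2 : (((m + 1 : ℕ) : ZMod (m + 1)) - 1) = -1 := by
    rw [ZMod.natCast_self]; ring
  rw [h1, h2] at hfin
  refine hS.retract (ev i j L) (ω (-1)) 1 (-((m + 1 : ℕ) : ℤ)) (by
    intro h3
    push_cast at h3
    omega) ?_
  rw [pow_one]
  exact hfin

/-- Elements of the factor `P`. -/
theorem elliptic (h : IsAmalgam e i j) (hP : PropVRC P) (hQ : PropVRC Q) (r : R)
    (hr : (Subgroup.zpowers r).FiniteIndex) (p : P) :
    VirtualRetract (Subgroup.zpowers (i p)) := by
  by_cases hp : IsOfFinOrder p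
  · exact elliptic_fin h hP hQ r hr p hp
  · exact elliptic_inf h hP hQ r hr p hp

/-- Property (VRC) of amalgamated free products over virtually cyclic subgroups. -/
theorem amalgam_vrc (h : IsAmalgam e i j) (hP : PropVRC P) (hQ : PropVRC Q) (r : R)
    (hr : (Subgroup.zpowers r).FiniteIndex) : PropVRC G := by
  refine good_of_words h (fun g => VirtualRetract (Subgroup.zpowers g))
    (fun g x => VirtualRetract.conj g x) (elliptic h hP hQ r hr) ?_
    (fun L hL hLx => hyperbolic h hP hQ r hr L hL hLx)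
  exact elliptic h.symm hQ hP (e r) (equiv_fi e r hr)

end Pool.Agent.Helper66K9.VRC
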