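import Pool.Agent.Helper66K9.VRC.Compat

/-!
# Property (VRC) of amalgamated free products over virtually cyclic subgroups
-/

set_option autoImplicit false

namespace Pool.Agent.Helper66K9.VRC

universe u

open Equiv

variable {P Q G : Type u} [Group P] [Group Q] [Group G] {R : Subgroup P}
    {S : Subgroup Q} {e : R ≃* S} {i : P →* G} {j : Q →* G}

theorem val_comp (P₀ : Subgroup P) [P₀.Normal] (f : P₀ →* M) (r₀ : P) (hr₀ : r₀ ∈ P₀) (ξ : P)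
    (a : ℤ) : val P₀ ((zpowGroupHom a).comp f) r₀ hr₀ ξ = (val P₀ f r₀ hr₀ ξ) ^ a := rfl

/-- Elements of infinite order of the factor `P`. -/
theorem elliptic_inf (h : IsAmalgam e i j) (hP : PropVRC P) (hQ : PropVRC Q) (r : R)
    (hr : (Subgroup.zpowers r).FiniteIndex) (p : P) (hp : ¬ IsOfFinOrder p) :
    VirtualRetract (Subgroup.zpowers (i p)) := by
  obtain ⟨K, hK, hpK, χ, hχ⟩ := exists_hom hp (hP p)
  obtain ⟨P₀, Q₀, r₀, hP₀n, hP₀f, hQ₀n, hQ₀f, hPM, -, hP₀, hQ₀, fQ, hfQ⟩ :=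
    compat hP hQ e r hr K ⊤
  have hr₀ : (r₀ : P) ∈ P₀ := (hP₀ r₀).mpr ⟨1, (zpow_one _).symm⟩
  have hs₀ : ((e r₀ : S) : Q) ∈ Q₀ := (hQ₀ (e r₀)).mpr ⟨1, (zpow_one _).symm⟩
  let f₀ : P₀ →* M := χ.comp (Subgroup.inclusion hPM)
  set n : ℕ := orderOf (p : P ⧸ P₀) with hn
  have hnpos : 0 < n := orderOf_pos _
  have hpn : p ^ n ∈ P₀ := by
    rw [← QuotientGroup.eq_one_iff, QuotientGroup.mk_pow, hn, pow_orderOf_eq_one]
  have hf₀ : f₀ ⟨p ^ n, hpn⟩ = Multiplicative.ofAdd (n : ℤ) := by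
    change χ (Subgroup.inclusion hPM ⟨p ^ n, hpn⟩) = _
    have h1 : Subgroup.inclusion hPM ⟨p ^ n, hpn⟩ = (⟨p, hpK⟩ : K) ^ n := rfl
    rw [h1, map_pow, hχ]
    apply Multiplicative.toAdd.injective
    rw [toAdd_pow]
    simp
  obtain ⟨I, hI, cl, hcls, hcl⟩ := exists_class R P₀
  obtain ⟨J, hJ, cl', hcls', hcl'⟩ := exists_class S Q₀
  choose x hx using hcls
  choose y hy using hcls'
  let w : I → ℤ := fun i => Multiplicative.toAdd (val P₀ f₀ r₀ hr₀ (x i))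
  let w' : J → ℤ := fun j => Multiplicative.toAdd (val Q₀ fQ (e r₀) hs₀ (y j))
  obtain ⟨a, b, ⟨j₀, hj₀⟩, hab⟩ : ∃ (a : J → ℤ) (b : I → ℤ), (∃ j, a j ≠ 0) ∧
      ∀ i j, a j * w i = b i * w' j := by
    by_cases hw : ∀ i, w i = 0
    · exact ⟨fun _ => 1, fun _ => 0, ⟨cl' 1, one_ne_zero⟩, fun i j => by rw [hw]; ring⟩
    · push Not at hw
      obtain ⟨i₁, hi₁⟩ := hw
      have hr₀1 : r₀ ≠ 1 := by
        rintro rfl
        apply hi₁
        change Multiplicative.toAdd (val P₀ f₀ ((1 : R) : P) hr₀ (x i₁)) = 0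
        have h1 : val P₀ f₀ ((1 : R) : P) hr₀ (x i₁) = 1 := by
          have h2 : (⟨(x i₁)⁻¹ * ((1 : R) : P) * x i₁, by simp [P₀.one_mem]⟩ : P₀) = 1 :=
            Subtype.ext (by simp)
          exact (congrArg f₀ h2).trans (map_one _)
        rw [h1]
        rfl
      refine ⟨w', w, ⟨cl' 1, ?_⟩, fun i j => mul_comm _ _⟩
      intro hw0
      obtain ⟨s, hs, q₀, hq₀, h1⟩ := (hcl' (y (cl' 1)) 1).mp (hy _)
      have h2 : y (cl' 1) = s⁻¹ * q₀⁻¹ := by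
        rw [eq_inv_mul_iff_mul_eq, eq_inv_iff_mul_eq_one]
        exact h1.symm
      have h3 : s * ((e r₀ : S) : Q) * s⁻¹ ∈ Q₀ := hQ₀n.conj_mem _ hs₀ s
      obtain ⟨k, hk⟩ := (hQ₀ (⟨s, hs⟩ * e r₀ * ⟨s, hs⟩⁻¹)).mp h3
      have hk' : s * ((e r₀ : S) : Q) * s⁻¹ = ((e r₀ : S) : Q) ^ k := by
        have := congrArg Subtype.val hk
        rwa [Subgroup.coe_zpow] at this
      have h4 : val Q₀ fQ (e r₀) hs₀ (y (cl' 1)) = 1 := Multiplicative.toAdd.injective hw0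
      have h3' : ((e r₀ : S) : Q) ^ k ∈ Q₀ := by rw [← hk']; exact h3
      have h5 : val Q₀ fQ (e r₀) hs₀ (y (cl' 1)) = fQ ⟨_, h3'⟩ := by
        have h6 : (⟨(y (cl' 1))⁻¹ * ((e r₀ : S) : Q) * y (cl' 1),
            by simpa using hQ₀n.conj_mem _ hs₀ (y (cl' 1))⁻¹⟩ : Q₀) =
            ⟨q₀, hq₀⟩ * ⟨_, h3'⟩ * ⟨q₀, hq₀⟩⁻¹ := by
          apply Subtype.ext
          change (y (cl' 1))⁻¹ * ((e r₀ : S) : Q) * y (cl' 1) =
            q₀ * ((e r₀ : S) : Q) ^ k * q₀⁻¹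
          rw [← hk', h2]
          group
        have h7 := congrArg fQ h6
        rw [map_mul, map_mul, map_inv, mul_comm (fQ _) (fQ _), mul_inv_cancel_right] at h7
        exact h7
      rw [h5] at h4
      have h8 := hfQ k h3' h4
      have h9 : (⟨s, hs⟩ * e r₀ * ⟨s, hs⟩⁻¹ : S) = 1 := by
        rw [hk, ← map_zpow, h8, map_one]
      rw [conj_eq_one_iff] at h9
      exact hr₀1 (by simpa using h9)
  let f : J → P₀ →* M := fun j => (zpowGroupHom (a j)).comp f₀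
  let f' : I → Q₀ →* M := fun i => (zpowGroupHom (b i)).comp fQ
  have hα : Reps R P₀ (fun l : I × J => l.2) (fun l : I × J => x l.1) := by
    constructor
    · intro x₀ p
      exact ⟨(cl p, x₀), rfl, (hcl _ _).mp (hx _)⟩
    · intro l m h1 h2
      have h3 := (hcl _ _).mpr h2
      rw [hx, hx] at h3
      exact Prod.ext h3 h1
  have hβ : Reps S Q₀ (fun l : I × J => l.1) (fun l : I × J => y l.2) := by
    constructor
    · intro x₀ p
      exact ⟨(x₀, cl' p), rfl, (hcl' _ _).mp (hy _)⟩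
    · intro l m h1 h2
      have h3 := (hcl' _ _).mpr h2
      rw [hy, hy] at h3
      exact Prod.ext h1 h3
  obtain ⟨φ, hS, hφ, -⟩ := construct h P₀ Q₀ r₀ hP₀ hQ₀ _ _ hα _ _ hβ f f' hr₀ hs₀ (by
    intro l
    change val P₀ ((zpowGroupHom (a l.2)).comp f₀) r₀ hr₀ (x l.1) =
      val Q₀ ((zpowGroupHom (b l.1)).comp fQ) (e r₀) hs₀ (y l.2)
    rw [val_comp, val_comp]
    apply Multiplicative.toAdd.injective
    rw [toAdd_zpow, toAdd_zpow, smul_eq_mul, smul_eq_mul]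
    exact hab l.1 l.2) (fun _ => 1)
  refine hS.retract (i p) (pt f j₀ 1 1) n (n * a j₀) (mul_ne_zero (by exact_mod_cast hnpos.ne') hj₀) ?_
  rw [← map_pow, hφ, act_pt, sh_zpow_pt, pt_eq]
  have h1 : (p ^ n * 1)⁻¹ * 1 ∈ P₀ := by
    rw [mul_one, mul_one]; exact P₀.inv_mem hpn
  refine ⟨rfl, h1, ?_⟩
  have h2 : (⟨(p ^ n * 1)⁻¹ * 1, h1⟩ : P₀) = ⟨p ^ n, hpn⟩⁻¹ := Subtype.ext (by simp)
  rw [h2, map_inv]
  change (1 : M) = _ * (f₀ ⟨p ^ n, hpn⟩ ^ (a j₀))⁻¹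
  rw [hf₀]
  apply Multiplicative.toAdd.injective
  simp [mul_comm]

theorem val_one (P₀ : Subgroup P) [P₀.Normal] (r₀ : P) (hr₀ : r₀ ∈ P₀) (ξ : P) :
    val P₀ (1 : P₀ →* M) r₀ hr₀ ξ = 1 := rfl

/-- Elements of finite order of the factor `P`. -/
theorem elliptic_fin (h : IsAmalgam e i j) (hP : PropVRC P) (hQ : PropVRC Q) (r : R)
    (hr : (Subgroup.zpowers r).FiniteIndex) (p : P) (hp : IsOfFinOrder p) :
    VirtualRetract (Subgroup.zpowers (i p)) := by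
  have h1 : Finite (Subgroup.zpowers p) := hp.finite_zpowers.to_subtype
  obtain ⟨N, hN, hNf, hN1⟩ := avoid_finite hP (fun x : Subgroup.zpowers p => (x : P))
  obtain ⟨P₀, Q₀, r₀, hP₀n, hP₀f, hQ₀n, hQ₀f, hPM, -, hP₀, hQ₀, -⟩ :=
    compat hP hQ e r hr N ⊤
  have hr₀ : (r₀ : P) ∈ P₀ := (hP₀ r₀).mpr ⟨1, (zpow_one _).symm⟩
  have hs₀ : ((e r₀ : S) : Q) ∈ Q₀ := (hQ₀ (e r₀)).mpr ⟨1, (zpow_one _).symm⟩
  obtain ⟨I, hI, cl, hcls, hcl⟩ := exists_class R P₀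
  obtain ⟨J, hJ, cl', hcls', hcl'⟩ := exists_class S Q₀
  choose x hx using hcls
  choose y hy using hcls'
  let f : J → P₀ →* M := fun _ => 1
  let f' : I → Q₀ →* M := fun _ => 1
  have hα : Reps R P₀ (fun l : I × J => l.2) (fun l : I × J => x l.1) := by
    constructor
    · intro x₀ p
      exact ⟨(cl p, x₀), rfl, (hcl _ _).mp (hx _)⟩
    · intro l m h1 h2
      have h3 := (hcl _ _).mpr h2
      rw [hx, hx] at h3
      exact Prod.ext h3 h1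
  have hβ : Reps S Q₀ (fun l : I × J => l.1) (fun l : I × J => y l.2) := by
    constructor
    · intro x₀ p
      exact ⟨(x₀, cl' p), rfl, (hcl' _ _).mp (hy _)⟩
    · intro l m h1 h2
      have h3 := (hcl' _ _).mpr h2
      rw [hy, hy] at h3
      exact Prod.ext h1 h3
  obtain ⟨φ, hS, hφ, -⟩ := construct h P₀ Q₀ r₀ hP₀ hQ₀ _ _ hα _ _ hβ f f' hr₀ hs₀
    (fun l => rfl) (fun _ => 1)
  refine VirtualRetract.of_map hS.ψ _ ?_ (VirtualRetract.of_finite _)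
  rintro g ⟨k, rfl⟩ hk
  have hk1 : hS.ψ (i (p ^ k)) = 1 := by rw [map_zpow]; exact hk
  have h2 := hS.π_φ' (i (p ^ k)) (pt f (cl' 1) 1 1)
  rw [hk1, Perm.one_apply, hφ, act_pt, proj_pt, proj_pt, Prod.mk.injEq, QuotientGroup.eq] at h2
  have h3 : p ^ k ∈ P₀ := by
    have := P₀.inv_mem h2.2
    simpa using this
  have h4 := hN1 ⟨p ^ k, k, rfl⟩ (hPM h3)
  have h5 : p ^ k = 1 := h4
  change (i p) ^ k = 1
  rw [← map_zpow, h5, map_one]

theorem exists_perm_extend {D Λ : Type*} [Finite Λ] (a b : D → Λ) (ha : Function.Injective a)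
    (hb : Function.Injective b) : ∃ τ : Perm Λ, ∀ d, τ (a d) = b d := by
  classical
  let E : {x // x ∈ Set.range a} ≃ {x // x ∈ Set.range b} :=
    (Equiv.ofInjective a ha).symm.trans (Equiv.ofInjective b hb)
  have : Finite ↑{x | x ∈ Set.range a} := inferInstance
  refine ⟨Equiv.extendSubtype E, fun d => ?_⟩
  rw [Equiv.extendSubtype_apply_of_mem E _ ⟨d, rfl⟩]
  change ((Equiv.ofInjective b hb) ((Equiv.ofInjective a ha).symm ⟨a d, ⟨d, rfl⟩⟩) : Λ) = b d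
  have h1 : (Equiv.ofInjective a ha).symm ⟨a d, ⟨d, rfl⟩⟩ = d := by
    rw [Equiv.symm_apply_eq]; rfl
  rw [h1]
  rfl

end Pool.Agent.Helper66K9.VRC
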