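import Pool.Agent.Helper66K9.VRC.Glue

/-!
# Separability and potency in groups with property (VRC)
-/

set_option autoImplicit false

namespace Pool.Agent.Helper66K9.VRC

universe u v w

variable {P : Type u} [Group P]

/-- `zpow` is injective for elements of infinite order. -/
theorem zpow_inj {r : P} (hr : ¬ IsOfFinOrder r) {m n : ℤ} (h : r ^ m = r ^ n) : m = n :=
  injective_zpow_iff_not_isOfFinOrder.mpr hr h

theorem exists_hom {r : P} (hr : ¬ IsOfFinOrder r) (hv : VirtualRetract (Subgroup.zpowers r)) :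
    ∃ (K : Subgroup P) (_ : K.FiniteIndex) (h : r ∈ K) (χ : K →* M),
      χ ⟨r, h⟩ = Multiplicative.ofAdd 1 := by
  obtain ⟨K, hK, hrK, ρ, hρ⟩ := hv
  have hc : ∀ c : Subgroup.zpowers r, ∃ n : ℤ, (c : P) = r ^ n := fun c => by
    obtain ⟨n, hn⟩ := c.2
    exact ⟨n, hn.symm⟩
  choose ex hex using hc
  let θ : Subgroup.zpowers r →* M := MonoidHom.mk' (fun c => Multiplicative.ofAdd (ex c)) (by
    intro a b
    rw [← ofAdd_add]
    congr 1
    apply zpow_inj hr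
    rw [zpow_add, ← hex, ← hex, ← hex]
    rfl)
  have hr1 : r ∈ K := hrK (Subgroup.mem_zpowers r)
  refine ⟨K, hK, hr1, θ.comp ρ, ?_⟩
  change θ (ρ ⟨r, hr1⟩) = _
  rw [hρ ⟨r, hr1⟩ (Subgroup.mem_zpowers r)]
  change Multiplicative.ofAdd (ex _) = _
  congr 1
  apply zpow_inj hr
  rw [← hex, zpow_one]

theorem map_subtype_fi {K : Subgroup P} [hK : K.FiniteIndex] (L : Subgroup K) [hL : L.FiniteIndex] :
    (L.map K.subtype).FiniteIndex := by
  constructor
  rw [Subgroup.index_map_subtype (H := K) L]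
  exact mul_ne_zero hL.index_ne_zero hK.index_ne_zero

theorem zpowers_fi (m : ℤ) (hm0 : m ≠ 0) :
    (Subgroup.zpowers (Multiplicative.ofAdd m)).FiniteIndex := by
  have h1 : (AddSubgroup.zmultiples m).index = m.natAbs := Int.index_zmultiples m
  have h2 : (Subgroup.zpowers (Multiplicative.ofAdd m)).index = m.natAbs := by
    rw [← h1]
    rfl
  exact ⟨by rw [h2]; exact Int.natAbs_ne_zero.mpr hm0⟩

theorem mem_zpowers_ofAdd (m : ℤ) (x : M) :
    x ∈ Subgroup.zpowers (Multiplicative.ofAdd m) ↔ m ∣ Multiplicative.toAdd x := by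
  constructor
  · rintro ⟨k, rfl⟩
    refine ⟨k, ?_⟩
    change Multiplicative.toAdd ((Multiplicative.ofAdd m) ^ k) = _
    rw [toAdd_zpow, toAdd_ofAdd, smul_eq_mul, mul_comm]
  · rintro ⟨k, hk⟩
    refine ⟨k, ?_⟩
    apply Multiplicative.toAdd.injective
    change Multiplicative.toAdd ((Multiplicative.ofAdd m) ^ k) = _
    rw [toAdd_zpow, toAdd_ofAdd, smul_eq_mul, mul_comm, hk]

/-- Groups with (VRC) are residually finite. -/
theorem resid (hP : PropVRC P) (g : P) (hg : g ≠ 1) :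
    ∃ N : Subgroup P, N.Normal ∧ N.FiniteIndex ∧ g ∉ N := by
  have key : ∃ K' : Subgroup P, K'.FiniteIndex ∧ g ∉ K' := by
    by_cases hfin : IsOfFinOrder g
    · obtain ⟨K, hK, hrK, ρ, hρ⟩ := hP g
      have : Finite (Subgroup.zpowers g) := hfin.finite_zpowers.to_subtype
      have : ρ.ker.FiniteIndex := inferInstance
      refine ⟨ρ.ker.map K.subtype, map_subtype_fi _, ?_⟩
      rintro ⟨k, hk, hkg⟩
      have hkg' : (k : P) = g := hkg
      have h1 := hρ k (by rw [hkg']; exact Subgroup.mem_zpowers g)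
      have h2 : ρ k = 1 := hk
      rw [h2] at h1
      apply hg
      rw [← hkg']
      exact (congrArg Subtype.val h1).symm
    · obtain ⟨K, hK, hgK, χ, hχ⟩ := exists_hom hfin (hP g)
      have := zpowers_fi 2 (by norm_num)
      have : ((Subgroup.zpowers (Multiplicative.ofAdd (2 : ℤ))).comap χ).FiniteIndex :=
        comap_fi _ _
      refine ⟨((Subgroup.zpowers (Multiplicative.ofAdd (2 : ℤ))).comap χ).map K.subtype,
        map_subtype_fi _, ?_⟩
      rintro ⟨k, hk, hkg⟩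
      have hkg' : k = ⟨g, hgK⟩ := Subtype.ext hkg
      subst hkg'
      have h1 : χ ⟨g, hgK⟩ ∈ Subgroup.zpowers (Multiplicative.ofAdd (2 : ℤ)) := hk
      rw [hχ, mem_zpowers_ofAdd, toAdd_ofAdd] at h1
      norm_num at h1
  obtain ⟨K', hK', hg'⟩ := key
  exact ⟨K'.normalCore, inferInstance, inferInstance, fun h => hg' (K'.normalCore_le h)⟩

/-- A finite intersection of normal subgroups of finite index. -/
theorem exists_inf {ι : Type*} [Finite ι] (N : ι → Subgroup P)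
    (hN : ∀ k, (N k).Normal ∧ (N k).FiniteIndex) :
    ∃ N' : Subgroup P, N'.Normal ∧ N'.FiniteIndex ∧ ∀ k, N' ≤ N k :=
  ⟨⨅ k, N k, Subgroup.normal_iInf_normal fun k => (hN k).1,
    Subgroup.finiteIndex_iInf fun k => (hN k).2, fun k => iInf_le _ k⟩

/-- Cyclic subgroups of groups with (VRC) are separable. -/
theorem sep_zpowers (hP : PropVRC P) (r p : P) (hp : p ∉ Subgroup.zpowers r) :
    ∃ N : Subgroup P, N.Normal ∧ N.FiniteIndex ∧ ∀ h ∈ Subgroup.zpowers r, h⁻¹ * p ∉ N := by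
  obtain ⟨K, hK, hrK, ρ, hρ⟩ := hP r
  by_cases hpK : p ∈ K
  · set y : P := ((ρ ⟨p, hpK⟩ : Subgroup.zpowers r) : P)⁻¹ * p with hy
    have hy1 : y ≠ 1 := by
      intro h
      rw [hy, inv_mul_eq_one] at h
      exact hp (by rw [← h]; exact (ρ ⟨p, hpK⟩).2)
    obtain ⟨N₁, hN₁, hN₁f, hyN⟩ := resid hP y hy1
    have hf1 : (N₁.subgroupOf K).FiniteIndex := inferInstance
    have hf2 : (N₁.comap ((Subgroup.zpowers r).subtype.comp ρ)).FiniteIndex := comap_fi _ _
    have hf3 : ((N₁.subgroupOf K) ⊓ (N₁.comap ((Subgroup.zpowers r).subtype.comp ρ))).FiniteIndex :=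
      inferInstance
    have hf4 := map_subtype_fi
      ((N₁.subgroupOf K) ⊓ (N₁.comap ((Subgroup.zpowers r).subtype.comp ρ)))
    refine ⟨_, Subgroup.normalCore_normal _, @Subgroup.finiteIndex_normalCore _ _ _ hf4, ?_⟩
    intro h hh hn
    obtain ⟨k, ⟨hk1, hk2⟩, hk⟩ := Subgroup.normalCore_le _ hn
    have hk' : (k : P) = h⁻¹ * p := hk
    have hk1' : (k : P) ∈ N₁ := hk1
    have hk2' : ((ρ k : Subgroup.zpowers r) : P) ∈ N₁ := hk2
    have e1 : (⟨p, hpK⟩ : K) = ⟨h, hrK hh⟩ * k := by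
      apply Subtype.ext
      change p = h * (k : P)
      rw [hk', mul_inv_cancel_left]
    have e2 : ((ρ ⟨p, hpK⟩ : Subgroup.zpowers r) : P) = h * (ρ k : Subgroup.zpowers r) := by
      rw [e1, map_mul, hρ ⟨h, hrK hh⟩ hh]
      rfl
    apply hyN
    rw [hy, e2, mul_inv_rev, mul_assoc, ← hk']
    exact N₁.mul_mem (N₁.inv_mem hk2') hk1'
  · refine ⟨K.normalCore, inferInstance, inferInstance, ?_⟩
    intro h hh hn
    apply hpK
    have := K.mul_mem (hrK hh) (K.normalCore_le hn)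
    rwa [mul_inv_cancel_left] at this

/-- The virtually cyclic subgroup `R`: it contains a cyclic subgroup of finite index generated
by `r`. -/
theorem exists_reps {R : Subgroup P} (r : R) (hr : (Subgroup.zpowers r).FiniteIndex) :
    ∃ (ι : Type u) (_ : Finite ι) (y : ι → R), ∀ x : R, ∃ k, ∃ n : ℤ, x = y k * r ^ n := by
  refine ⟨R ⧸ Subgroup.zpowers r, inferInstance, fun c => c.out, fun x => ?_⟩
  refine ⟨(x : R ⧸ Subgroup.zpowers r), ?_⟩
  have h1 : (((x : R ⧸ Subgroup.zpowers r).out : R) : R ⧸ Subgroup.zpowers r) = x :=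
    Quotient.out_eq' _
  rw [QuotientGroup.eq] at h1
  obtain ⟨n, hn⟩ := h1
  exact ⟨n, by
    change r ^ n = _ at hn
    rw [hn, mul_inv_cancel_left]⟩

/-- Virtually cyclic subgroups of groups with (VRC) are separable. -/
theorem sep_vc (hP : PropVRC P) {R : Subgroup P} (r : R) (hr : (Subgroup.zpowers r).FiniteIndex)
    (p : P) (hp : p ∉ R) :
    ∃ N : Subgroup P, N.Normal ∧ N.FiniteIndex ∧ ∀ h ∈ R, h⁻¹ * p ∉ N := by
  obtain ⟨ι, _, y, hy⟩ := exists_reps r hr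
  have h1 : ∀ k, ∃ N : Subgroup P, (N.Normal ∧ N.FiniteIndex) ∧
      ∀ h ∈ Subgroup.zpowers (r : P), h⁻¹ * ((y k : P)⁻¹ * p) ∉ N := by
    intro k
    obtain ⟨N, h1, h2, h3⟩ := sep_zpowers hP (r : P) ((y k : P)⁻¹ * p) (by
      rintro ⟨n, hn⟩
      apply hp
      have h4 : (r : P) ^ n = (y k : P)⁻¹ * p := hn
      have h5 : p = ((y k * r ^ n : R) : P) := by
        rw [Subgroup.coe_mul, Subgroup.coe_zpow, h4, mul_inv_cancel_left]
      rw [h5]
      exact Subtype.property _)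
    exact ⟨N, ⟨h1, h2⟩, h3⟩
  choose N hN hN' using h1
  obtain ⟨N', h2, h3, h4⟩ := exists_inf N hN
  refine ⟨N', h2, h3, ?_⟩
  intro h hh hn
  obtain ⟨k, n, hkn⟩ := hy ⟨h, hh⟩
  refine hN' k ((r : P) ^ n) (Subgroup.zpow_mem _ (Subgroup.mem_zpowers _) _) ?_
  have h5 : h = (y k : P) * (r : P) ^ n := by
    have := congrArg Subtype.val hkn
    rwa [Subgroup.coe_mul, Subgroup.coe_zpow] at this
  have h6 := h4 k hn
  rw [h5, mul_inv_rev, mul_assoc] at h6
  exact h6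

/-- There is a normal subgroup of finite index which meets `R` inside the cyclic subgroup. -/
theorem cut_vc (hP : PropVRC P) {R : Subgroup P} (r : R) (hr : (Subgroup.zpowers r).FiniteIndex) :
    ∃ N : Subgroup P, N.Normal ∧ N.FiniteIndex ∧
      ∀ x : R, (x : P) ∈ N → ∃ n : ℤ, x = r ^ n := by
  classical
  obtain ⟨ι, _, y, hy⟩ := exists_reps r hr
  have h1 : ∀ k, ∃ N : Subgroup P, (N.Normal ∧ N.FiniteIndex) ∧
      ((y k : P) ∉ Subgroup.zpowers (r : P) →
        ∀ h ∈ Subgroup.zpowers (r : P), h⁻¹ * (y k : P) ∉ N) := by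
    intro k
    by_cases hk : (y k : P) ∈ Subgroup.zpowers (r : P)
    · exact ⟨⊤, ⟨inferInstance, inferInstance⟩, fun h => absurd hk h⟩
    · obtain ⟨N, h1, h2, h3⟩ := sep_zpowers hP (r : P) (y k : P) hk
      exact ⟨N, ⟨h1, h2⟩, fun _ => h3⟩
  choose N hN hN' using h1
  obtain ⟨N', h2, h3, h4⟩ := exists_inf N hN
  refine ⟨N', h2, h3, ?_⟩
  intro x hx
  obtain ⟨k, n, hkn⟩ := hy x
  by_cases hk : (y k : P) ∈ Subgroup.zpowers (r : P)
  · obtain ⟨m, hm⟩ := hk
    refine ⟨m + n, ?_⟩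
    rw [hkn, zpow_add]
    congr 1
    apply Subtype.ext
    rw [Subgroup.coe_zpow]
    exact hm.symm
  · exfalso
    refine hN' k hk ((r : P) ^ (-n)) (Subgroup.zpow_mem _ (Subgroup.mem_zpowers _) _) ?_
    apply h4 k
    have h5 : (x : P) = (y k : P) * (r : P) ^ n := by
      rw [hkn, Subgroup.coe_mul, Subgroup.coe_zpow]
    have h6 := h2.conj_mem _ hx ((r : P) ^ n)
    rw [h5] at h6
    rw [zpow_neg, inv_inv]
    have h7 : (r : P) ^ n * ((y k : P) * (r : P) ^ n) * ((r : P) ^ n)⁻¹ = (r : P) ^ n * (y k : P) := by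
      group
    rw [h7] at h6
    exact h6

/-- Finite subsets avoid some normal subgroup of finite index. -/
theorem avoid_finite (hP : PropVRC P) {ι : Type*} [Finite ι] (y : ι → P) :
    ∃ N : Subgroup P, N.Normal ∧ N.FiniteIndex ∧ ∀ k, y k ∈ N → y k = 1 := by
  classical
  have h1 : ∀ k, ∃ N : Subgroup P, (N.Normal ∧ N.FiniteIndex) ∧ (y k ∈ N → y k = 1) := by
    intro k
    by_cases hk : y k = 1
    · exact ⟨⊤, ⟨inferInstance, inferInstance⟩, fun _ => hk⟩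
    · obtain ⟨N, h1, h2, h3⟩ := resid hP (y k) hk
      exact ⟨N, ⟨h1, h2⟩, fun h => absurd h h3⟩
  choose N hN hN' using h1
  obtain ⟨N', h2, h3, h4⟩ := exists_inf N hN
  exact ⟨N', h2, h3, fun k hk => hN' k (h4 k hk)⟩

/-- Potency: the subgroups of finite index in a cyclic subgroup which are traces of normal
subgroups of finite index contained in a given one. -/
theorem potency (hP : PropVRC P) (r : P) (hr : ¬ IsOfFinOrder r) (M' : Subgroup P)
    [hM' : M'.FiniteIndex] :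
    ∃ k₁ : ℕ, 0 < k₁ ∧ ∀ n : ℕ, 0 < n → ∃ N : Subgroup P, N.Normal ∧ N.FiniteIndex ∧ N ≤ M' ∧
      (∀ j : ℤ, r ^ j ∈ N ↔ ((k₁ * n : ℕ) : ℤ) ∣ j) ∧
      ∃ f : N →* M, ∀ (j : ℤ) (hj : r ^ j ∈ N), f ⟨r ^ j, hj⟩ = Multiplicative.ofAdd j := by
  obtain ⟨K, hK, hrK, χ, hχ⟩ := exists_hom hr (hP r)
  have hχz : ∀ (j : ℤ) (hj : r ^ j ∈ K), χ ⟨r ^ j, hj⟩ = Multiplicative.ofAdd j := by
    intro j hj
    have h1 : (⟨r ^ j, hj⟩ : K) = ⟨r, hrK⟩ ^ j := rfl
    rw [h1, map_zpow, hχ]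
    apply Multiplicative.toAdd.injective
    rw [toAdd_zpow]
    simp
  let K₁ : Subgroup P := (K ⊓ M').normalCore
  have hK₁f : K₁.FiniteIndex := inferInstance
  have hK₁n : K₁.Normal := inferInstance
  have hK₁K : ∀ x : P, x ∈ K₁ → x ∈ K := fun x hx => (Subgroup.normalCore_le _ hx).1
  have hK₁M : ∀ x : P, x ∈ K₁ → x ∈ M' := fun x hx => (Subgroup.normalCore_le _ hx).2
  set k₁ : ℕ := orderOf (r : P ⧸ K₁) with hk₁
  have hk₁pos : 0 < k₁ := orderOf_pos _
  have hk₁iff : ∀ j : ℤ, r ^ j ∈ K₁ ↔ (k₁ : ℤ) ∣ j := by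
    intro j
    rw [hk₁, orderOf_dvd_iff_zpow_eq_one, ← QuotientGroup.mk_zpow, QuotientGroup.eq_one_iff]
  have hconj : ∀ x : P, x * r ^ (k₁ : ℤ) * x⁻¹ ∈ K₁ := fun x =>
    hK₁n.conj_mem _ ((hk₁iff _).mpr dvd_rfl) x
  let a : P → ℤ := fun x => Multiplicative.toAdd (χ ⟨x * r ^ (k₁ : ℤ) * x⁻¹, hK₁K _ (hconj x)⟩)
  have ha1 : a 1 = k₁ := by
    have h1 : (⟨1 * r ^ (k₁ : ℤ) * 1⁻¹, hK₁K _ (hconj 1)⟩ : K) =
        ⟨r ^ (k₁ : ℤ), by have := hK₁K _ (hconj 1); simpa using this⟩ := Subtype.ext (by simp)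
    change Multiplicative.toAdd (χ ⟨1 * r ^ (k₁ : ℤ) * 1⁻¹, hK₁K _ (hconj 1)⟩) = _
    rw [h1, hχz, toAdd_ofAdd]
  -- the values on conjugates of powers
  have hval : ∀ (x : P) (j : ℤ) (hj : x * r ^ ((k₁ : ℤ) * j) * x⁻¹ ∈ K),
      Multiplicative.toAdd (χ ⟨x * r ^ ((k₁ : ℤ) * j) * x⁻¹, hj⟩) = j * a x := by
    intro x j hj
    have h1 : (⟨x * r ^ ((k₁ : ℤ) * j) * x⁻¹, hj⟩ : K) =
        ⟨x * r ^ (k₁ : ℤ) * x⁻¹, hK₁K _ (hconj x)⟩ ^ j := by
      apply Subtype.ext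
      rw [Subgroup.coe_zpow]
      change x * r ^ ((k₁ : ℤ) * j) * x⁻¹ = (x * r ^ (k₁ : ℤ) * x⁻¹) ^ j
      rw [conj_zpow, zpow_mul]
    rw [h1, map_zpow, toAdd_zpow, smul_eq_mul]
  -- the generator of the ideal of values
  obtain ⟨d, hd⟩ : ∃ d : ℤ, Ideal.span (Set.range a) = Ideal.span {d} :=
    (IsPrincipalIdealRing.principal (Ideal.span (Set.range a))).principal
  have hda : ∀ x, d ∣ a x := by
    intro x
    rw [← Ideal.mem_span_singleton, ← hd]
    exact Ideal.subset_span ⟨x, rfl⟩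
  have hd0 : d ≠ 0 := by
    rintro rfl
    have := hda 1
    rw [ha1, zero_dvd_iff] at this
    omega
  refine ⟨k₁, hk₁pos, fun n hn => ?_⟩
  have hdn : d * n ≠ 0 := mul_ne_zero hd0 (by exact_mod_cast hn.ne')
  have hf0 := zpowers_fi (d * n) hdn
  let L₀ : Subgroup K := (Subgroup.zpowers (Multiplicative.ofAdd (d * (n : ℤ)))).comap χ
  have hL₀ : L₀.FiniteIndex := comap_fi _ _
  let L : Subgroup P := L₀.map K.subtype ⊓ M'
  have hL₀' : (L₀.map K.subtype).FiniteIndex := map_subtype_fi L₀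
  have hL : L.FiniteIndex := inferInstance
  have hmemL : ∀ x : P, x ∈ L ↔ x ∈ M' ∧ ∃ h : x ∈ K, d * n ∣ Multiplicative.toAdd (χ ⟨x, h⟩) := by
    intro x
    constructor
    · rintro ⟨⟨k, hk, rfl⟩, hx2⟩
      exact ⟨hx2, k.2, (mem_zpowers_ofAdd _ _).mp hk⟩
    · rintro ⟨h1, h2, h3⟩
      exact ⟨⟨⟨x, h2⟩, (mem_zpowers_ofAdd _ _).mpr h3, rfl⟩, h1⟩
  have hLK : ∀ x ∈ L, x ∈ K := fun x hx => ((hmemL x).mp hx).2.choose
  refine ⟨L.normalCore, inferInstance, inferInstance,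
    fun x hx => ((hmemL x).mp (L.normalCore_le hx)).1, ?_, ?_⟩
  · intro j
    constructor
    · intro hj
      have hjK₁ : r ^ j ∈ K₁ := by
        intro x
        have := (hmemL _).mp (hj x)
        exact ⟨this.2.choose, this.1⟩
      obtain ⟨j', rfl⟩ := (hk₁iff j).mp hjK₁
      have h1 : ∀ x, d * n ∣ j' * a x := by
        intro x
        obtain ⟨-, h2, h3⟩ := (hmemL _).mp (hj x)
        rwa [hval] at h3
      have h2 : d ∈ Ideal.span (Set.range a) := by
        rw [hd]; exact Ideal.mem_span_singleton_self d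
      have h3 : d * n ∣ j' * d := by
        refine Submodule.span_induction (p := fun y _ => d * n ∣ j' * y) ?_ ?_ ?_ ?_ h2
        · rintro _ ⟨x, rfl⟩
          exact h1 x
        · simp
        · intro y z _ _ hy hz
          rw [mul_add]
          exact dvd_add hy hz
        · intro c y _ hy
          rw [smul_eq_mul, mul_left_comm]
          exact hy.mul_left c
      rw [mul_comm d, Int.mul_dvd_mul_iff_right hd0] at h3
      push_cast
      exact mul_dvd_mul_left _ h3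
    · rintro ⟨j', rfl⟩
      intro x
      rw [hmemL]
      have h1 : ((k₁ * n : ℕ) : ℤ) * j' = (k₁ : ℤ) * (n * j') := by push_cast; ring
      have h2 : x * r ^ (((k₁ * n : ℕ) : ℤ) * j') * x⁻¹ ∈ K₁ := by
        apply hK₁n.conj_mem
        rw [h1, hk₁iff]
        exact dvd_mul_right _ _
      refine ⟨hK₁M _ h2, hK₁K _ h2, ?_⟩
      have h3 := hval x (n * j') (by rw [← h1]; exact hK₁K _ h2)
      have h4 : (⟨x * r ^ (((k₁ * n : ℕ) : ℤ) * j') * x⁻¹, hK₁K _ h2⟩ : K) =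
          ⟨x * r ^ ((k₁ : ℤ) * (n * j')) * x⁻¹, by rw [← h1]; exact hK₁K _ h2⟩ :=
        Subtype.ext (by simp only [h1])
      rw [h4, h3]
      obtain ⟨b, hb⟩ := hda x
      rw [hb]
      exact ⟨j' * b, by ring⟩
  · refine ⟨χ.comp (Subgroup.inclusion (fun x hx => hLK x (L.normalCore_le hx))), ?_⟩
    intro j hj
    exact hχz j _

end Pool.Agent.Helper66K9.VRC
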